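import Pool.Agent.W_b4801b_h24.Pot

/-! Clause (B) of the density theorem: see `Pool.Agent.B4801bSq.clauseB` in `Pot.lean`. -/
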