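import Pool.Agent.W_b4801b_h24.Core
import Pool.Agent.W_MP_b4801b_h67.Avg

set_option autoImplicit false

/-! Semisimplicity and subgroups of finite index. -/

noncomputable section

open Module

namespace Pool.Agent.B4801bSq

open Pool.Agent.B4801b

variable {K : Type*} [Field K] {V : Type*} [AddCommGroup V] [Module K V] {G : Type*} [Group G]

/-- The restriction of a representation to a subgroup. -/
def restr (ρ : Representation K G V) (U : Subgroup G) : Representation K U V :=
  MonoidHom.comp ρ U.subtype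

theorem restr_apply (ρ : Representation K G V) (U : Subgroup G) (u : U) : restr ρ U u = ρ u := rfl

theorem exists_irred_le [FiniteDimensional K V] (ρ : Representation K G V) (W : Submodule K V)
    (hW : Stable ρ W) (hW0 : W ≠ ⊥) : ∃ W₁, IrredSub ρ W₁ ∧ W₁ ≤ W := by
  have hex : ∃ m : ℕ, ∃ U : Submodule K V, Stable ρ U ∧ U ≠ ⊥ ∧ U ≤ W ∧ finrank K U = m :=
    ⟨_, W, hW, hW0, le_rfl, rfl⟩
  classical
  obtain ⟨U, hU, hU0, hUW, hUm⟩ := Nat.find_spec hex
  refine ⟨U, ⟨hU, hU0, ?_⟩, hUW⟩
  intro T hT hTU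
  by_cases hT0 : T = ⊥
  · exact Or.inl hT0
  right
  have h1 := Nat.find_min' hex ⟨T, hT, hT0, hTU.trans hUW, rfl⟩
  rw [← hUm] at h1
  exact Submodule.eq_of_le_of_finrank_le hTU h1

/-- A representation which is the sum of its irreducible subrepresentations is semisimple. -/
theorem semisimple_of_sSup [FiniteDimensional K V] (ρ : Representation K G V)
    (h : ∀ X : Submodule K V, Stable ρ X → (∀ W, IrredSub ρ W → W ≤ X) → X = ⊤) :
    IsSemisimpleRep ρ := by
  classical
  intro W hW
  -- a stable subspace disjoint from `W`, of maximal dimension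
  let s : Set ℕ := {m | ∃ W' : Submodule K V, Stable ρ W' ∧ W ⊓ W' = ⊥ ∧ finrank K W' = m}
  have hs0 : (0 : ℕ) ∈ s := ⟨⊥, fun σ x hx => by
    rw [Submodule.mem_bot] at hx ⊢
    rw [hx, map_zero], inf_bot_eq W, finrank_bot K V⟩
  have hbdd : ∀ m ∈ s, m ≤ finrank K V := by
    rintro m ⟨W', -, -, rfl⟩
    exact Submodule.finrank_le _
  obtain ⟨m, hm, hmax⟩ : ∃ m ∈ s, ∀ m' ∈ s, m' ≤ m := by
    have hfin : s.Finite := (Set.finite_Iic (finrank K V)).subset fun m hm => hbdd m hm
    obtain ⟨m, hm, h1⟩ := hfin.exists_maximalFor id s ⟨0, hs0⟩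
    refine ⟨m, hm, fun m' hm' => ?_⟩
    rcases le_total m' m with h2 | h2
    · exact h2
    · exact h1 hm' h2
  obtain ⟨W', hW', hd, hfr⟩ := hm
  refine ⟨W', hW', ?_, ?_⟩
  · rw [disjoint_iff]; exact hd
  · rw [codisjoint_iff]
    have hst : Stable ρ (W ⊔ W') := by
      intro σ x hx
      obtain ⟨a, ha, b, hb, rfl⟩ := Submodule.mem_sup.mp hx
      rw [map_add]
      exact Submodule.add_mem_sup (hW σ a ha) (hW' σ b hb)
    apply h _ hst
    intro X hX
    have hstX : Stable ρ (X ⊓ (W ⊔ W')) := fun σ x hx => ⟨hX.1 σ x hx.1, hst σ x hx.2⟩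
    rcases hX.2.2 _ hstX inf_le_left with h1 | h1
    · exfalso
      have hstW : Stable ρ (W' ⊔ X) := by
        intro σ x hx
        obtain ⟨a, ha, b, hb, rfl⟩ := Submodule.mem_sup.mp hx
        rw [map_add]
        exact Submodule.add_mem_sup (hW' σ a ha) (hX.1 σ b hb)
      have hdis : W ⊓ (W' ⊔ X) = ⊥ := by
        rw [eq_bot_iff]
        rintro x ⟨hx1, hx2⟩
        obtain ⟨a, ha, b, hb, rfl⟩ := Submodule.mem_sup.mp hx2
        have hb' : b ∈ X ⊓ (W ⊔ W') := by
          refine ⟨hb, ?_⟩
          have : b = (a + b) + (-a) := by abel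
          rw [this]
          exact Submodule.add_mem_sup hx1 (W'.neg_mem ha)
        rw [h1, Submodule.mem_bot] at hb'
        subst hb'
        rw [add_zero] at hx1 ⊢
        rw [← hd]
        exact ⟨hx1, ha⟩
      have hWX : W' ⊓ X = ⊥ := by
        rw [eq_bot_iff, ← h1]
        exact le_inf inf_le_right (inf_le_left.trans le_sup_right)
      have h2 := hmax _ ⟨W' ⊔ X, hstW, hdis, rfl⟩
      have h3 := Submodule.finrank_sup_add_finrank_inf_eq W' X
      rw [hWX, finrank_bot, add_zero] at h3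
      have h4 : finrank K X ≠ 0 := fun h0 => hX.2.1 (Submodule.finrank_eq_zero.mp h0)
      omega
    · rw [← h1]
      exact inf_le_right

/-- Clifford's theorem for a normal subgroup. -/
theorem semisimple_restr_normal [FiniteDimensional K V] (ρ : Representation K G V)
    (N : Subgroup G) (hN : N.Normal) (h : IsSemisimpleRep ρ) : IsSemisimpleRep (restr ρ N) := by
  apply semisimple_of_sSup
  intro X hX hirr
  -- the sum of the irreducible subspaces is stable under `G`
  let S : Submodule K V := sSup {W | IrredSub (restr ρ N) W}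
  have hSX : S ≤ X := sSup_le fun W hW => hirr W hW
  have hinv : ∀ (g : G) (x : V), ρ g (ρ g⁻¹ x) = x := by
    intro g x
    rw [← Module.End.mul_apply, ← map_mul, mul_inv_cancel, map_one, Module.End.one_apply]
  have hinv' : ∀ (g : G) (x : V), ρ g⁻¹ (ρ g x) = x := by
    intro g x
    rw [← Module.End.mul_apply, ← map_mul, inv_mul_cancel, map_one, Module.End.one_apply]
  have hmapstab : ∀ (g : G) (W : Submodule K V), Stable (restr ρ N) W →
      Stable (restr ρ N) (W.map (ρ g)) := by
    rintro g W hW ⟨n, hn⟩ _ ⟨x, hx, rfl⟩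
    have hn' : g⁻¹ * n * g ∈ N := by
      have := hN.conj_mem n hn g⁻¹
      rwa [inv_inv] at this
    refine ⟨ρ (g⁻¹ * n * g) x, hW ⟨_, hn'⟩ x hx, ?_⟩
    show ρ g (ρ (g⁻¹ * n * g) x) = ρ n (ρ g x)
    rw [← Module.End.mul_apply, ← Module.End.mul_apply, ← map_mul, ← map_mul]
    congr 2
    group
  have hmapirr : ∀ (g : G) (W : Submodule K V), IrredSub (restr ρ N) W →
      IrredSub (restr ρ N) (W.map (ρ g)) := by
    intro g W hW
    refine ⟨hmapstab g W hW.1, ?_, ?_⟩
    · intro h0
      apply hW.2.1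
      rw [eq_bot_iff]
      intro x hx
      have : ρ g x ∈ W.map (ρ g) := ⟨x, hx, rfl⟩
      rw [h0, Submodule.mem_bot] at this
      rw [Submodule.mem_bot, ← hinv' g x, this, map_zero]
    · intro T hT hTW
      have hle : T.map (ρ g⁻¹) ≤ W := by
        rintro _ ⟨y, hy, rfl⟩
        obtain ⟨x, hx, rfl⟩ := hTW hy
        rw [hinv']
        exact hx
      have hback : ∀ y ∈ T, y = ρ g (ρ g⁻¹ y) := fun y _ => (hinv g y).symm
      rcases hW.2.2 _ (hmapstab g⁻¹ T hT) hle with h0 | h0
      · left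
        rw [eq_bot_iff]
        intro y hy
        have : ρ g⁻¹ y ∈ T.map (ρ g⁻¹) := ⟨y, hy, rfl⟩
        rw [h0, Submodule.mem_bot] at this
        rw [Submodule.mem_bot, hback y hy, this, map_zero]
      · right
        apply le_antisymm hTW
        rintro _ ⟨x, hx, rfl⟩
        have : x ∈ T.map (ρ g⁻¹) := by rw [h0]; exact hx
        obtain ⟨y, hy, rfl⟩ := this
        rw [hinv]
        exact hy
  have hS : Stable ρ S := by
    intro g x hx
    have h1 : S ≤ S.comap (ρ g) := by
      apply sSup_le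
      intro W hW
      have h2 : W.map (ρ g) ≤ S := le_sSup (hmapirr g W hW)
      exact Submodule.map_le_iff_le_comap.mp h2
    exact h1 hx
  obtain ⟨S', hS', hc⟩ := h S hS
  by_cases h0 : S' = ⊥
  · have h1 : S = ⊤ := by
      have := hc.sup_eq_top
      rwa [h0, sup_bot_eq] at this
    rw [eq_top_iff, ← h1]
    exact hSX
  · exfalso
    obtain ⟨W, hW, hle⟩ := exists_irred_le (restr ρ N) S' (fun n x hx => hS' n x hx) h0
    apply hW.2.1
    rw [eq_bot_iff, ← hc.inf_eq_bot]
    exact le_inf (le_sSup hW) hle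

/-- Semisimplicity can be tested on a subgroup of finite index. -/
theorem semisimple_iff_restr [CharZero K] [FiniteDimensional K V] (ρ : Representation K G V)
    (U : Subgroup G) [U.FiniteIndex] : IsSemisimpleRep ρ ↔ IsSemisimpleRep (restr ρ U) := by
  constructor
  · intro h
    have h1 := semisimple_restr_normal ρ U.normalCore (Subgroup.normalCore_normal U) h
    intro W hW
    refine exists_compl_of_finiteIndex (restr ρ U) (U.normalCore.subgroupOf U) W hW ?_
    obtain ⟨W', hW', hc⟩ := h1 W (fun n x hx => hW ⟨n, Subgroup.normalCore_le U n.2⟩ x hx)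
    exact ⟨W', fun σ hσ x hx => hW' ⟨(σ : G), hσ⟩ x hx, hc⟩
  · intro h W hW
    refine exists_compl_of_finiteIndex ρ U W hW ?_
    obtain ⟨W', hW', hc⟩ := h W (fun n x hx => hW n x hx)
    exact ⟨W', fun σ hσ x hx => hW' ⟨σ, hσ⟩ x hx, hc⟩

end Pool.Agent.B4801bSq
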