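import Pool.Agent.W_b4801b_h24.Core
import Pool.Agent.W_MP_b4801b_h67.Semi

set_option autoImplicit false

/-! An irreducible subrepresentation and an irreducible quotient with the same trace are isomorphic. -/

noncomputable section

open Module

namespace Pool.Agent.B4801bSq

/-- Separation of two non-isomorphic simple modules. -/
theorem exists_separating {R : Type*} [Ring R] {A B : Type*} [AddCommGroup A] [Module R A]
    [AddCommGroup B] [Module R B] [IsSimpleModule R A] [IsSimpleModule R B]
    (h : ¬ Nonempty (B ≃ₗ[R] A)) (sA : Finset A) (sB : Finset B) :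
    ∃ r : R, (∀ a ∈ sA, r • a = a) ∧ (∀ b ∈ sB, r • b = 0) := by
  classical
  have hAB : ∀ φ : A →ₗ[R] B, φ = 0 := fun φ => (φ.bijective_or_eq_zero).resolve_left
    fun hb => h ⟨(LinearEquiv.ofBijective φ hb).symm⟩
  have hBA : ∀ φ : B →ₗ[R] A, φ = 0 := fun φ => (φ.bijective_or_eq_zero).resolve_left
    fun hb => h ⟨LinearEquiv.ofBijective φ hb⟩
  have hss : IsSemisimpleModule R (A × B) := by
    have h1 : IsSemisimpleModule R (LinearMap.range (LinearMap.inl R A B)) :=
      IsSemisimpleModule.range _
    have h2 : IsSemisimpleModule R (LinearMap.range (LinearMap.inr R A B)) :=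
      IsSemisimpleModule.range _
    have h3 := IsSemisimpleModule.sup h1 h2
    rw [LinearMap.sup_range_inl_inr] at h3
    exact IsSemisimpleModule.congr (Submodule.topEquiv (R := R) (M := A × B)).symm
  let f : Module.End (Module.End R (A × B)) (A × B) :=
    { toFun := fun m => (m.1, 0)
      map_add' := fun m n => by ext <;> simp
      map_smul' := fun φ m => by
        show ((φ m).1, (0 : B)) = φ (m.1, 0)
        have h1 : φ m = φ (m.1, 0) + φ (0, m.2) := by
          rw [← map_add]
          congr 1
          ext <;> simp
        have h2 : (φ (0, m.2)).1 = 0 := by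
          have := LinearMap.congr_fun
            (hBA ((LinearMap.fst R A B) ∘ₗ φ ∘ₗ (LinearMap.inr R A B))) m.2
          exact this
        have h3 : (φ (m.1, 0)).2 = 0 := by
          have := LinearMap.congr_fun
            (hAB ((LinearMap.snd R A B) ∘ₗ φ ∘ₗ (LinearMap.inl R A B))) m.1
          exact this
        ext
        · show (φ m).1 = (φ (m.1, 0)).1
          rw [h1, Prod.fst_add, h2, add_zero]
        · exact h3.symm }
  obtain ⟨r, hr⟩ := jacobson_density f
    (sA.image (fun a => (a, (0 : B))) ∪ sB.image (fun b => ((0 : A), b)))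
  refine ⟨r, ?_, ?_⟩
  · intro a ha
    have := hr (a, 0) (Finset.mem_union_left _ (Finset.mem_image_of_mem _ ha))
    have h1 := congrArg Prod.fst this
    exact h1.symm
  · intro b hb
    have := hr (0, b) (Finset.mem_union_right _ (Finset.mem_image_of_mem _ hb))
    have h1 := congrArg Prod.snd this
    exact h1.symm

variable {K : Type*} [Field K] {V : Type*} [AddCommGroup V] [Module K V] {G : Type*} [Group G]

/-- The difference of the traces on a subspace and on a quotient, as a linear functional. -/
theorem exists_functional [FiniteDimensional K V] (W U : Submodule K V) :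
    ∃ t : Module.End K V →ₗ[K] K, ∀ (a : Module.End K V) (ha : ∀ x ∈ W, a x ∈ W)
      (hb : U ≤ U.comap a), t a = LinearMap.trace K W (a.restrict ha) -
        LinearMap.trace K (V ⧸ U) (U.mapQ U a hb) := by
  obtain ⟨p, hp⟩ := W.subtype.exists_leftInverse_of_injective W.ker_subtype
  obtain ⟨s, hs⟩ := U.mkQ.exists_rightInverse_of_surjective U.range_mkQ
  refine ⟨{ toFun := fun a => LinearMap.trace K V (a ∘ₗ (W.subtype ∘ₗ p)) -
              LinearMap.trace K V (a ∘ₗ (s ∘ₗ U.mkQ))
            map_add' := fun a b => by
              rw [LinearMap.add_comp, LinearMap.add_comp, map_add, map_add]; ring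
            map_smul' := fun r a => by
              rw [LinearMap.smul_comp, LinearMap.smul_comp, map_smul, map_smul, RingHom.id_apply,
                smul_sub] }, ?_⟩
  intro a ha hb
  show LinearMap.trace K V (a ∘ₗ (W.subtype ∘ₗ p)) - LinearMap.trace K V (a ∘ₗ (s ∘ₗ U.mkQ)) = _
  congr 1
  · rw [← LinearMap.comp_assoc, LinearMap.trace_comp_comm']
    congr 1
    apply LinearMap.ext
    intro x
    have h1 : a (x : V) = W.subtype (a.restrict ha x) := rfl
    show p (a (x : V)) = _
    rw [h1]
    exact LinearMap.congr_fun hp _
  · rw [← LinearMap.comp_assoc, LinearMap.trace_comp_comm']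
    congr 1
    apply LinearMap.ext
    intro x
    have h1 : U.mapQ U a hb (U.mkQ (s x)) = U.mkQ (a (s x)) := rfl
    have h2 : U.mkQ (s x) = x := LinearMap.congr_fun hs x
    rw [h2] at h1
    exact h1.symm

/-- An irreducible subrepresentation and an irreducible quotient on which the elements of the group
have the same trace are isomorphic. -/
theorem iso_of_trace [CharZero K] [FiniteDimensional K V] (ρ : Representation K G V)
    (W U : Submodule K V) (hW : IrredSub ρ W) (hU : IrredQuot ρ U)
    (ht : ∀ g, LinearMap.trace K W ((ρ g).restrict (hW.1 g)) =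
      LinearMap.trace K (V ⧸ U) (U.mapQ U (ρ g) (hU.1 g))) : QuotIsoSub ρ U W := by
  classical
  let T : Set (Module.End K V) := Set.range ρ
  have hst : ∀ X : Submodule K V, Stable ρ X ↔ B4801b.Stable T X := by
    intro X
    constructor
    · rintro h _ ⟨g, rfl⟩
      exact h g
    · intro h g
      exact h _ ⟨g, rfl⟩
  let R := Algebra.adjoin K T
  let W' : Submodule R V := B4801b.toSub T W ((hst W).mp hW.1)
  let U' : Submodule R V := B4801b.toSub T U ((hst U).mp hU.1)
  have hofst : ∀ N : Submodule R V, Stable ρ (B4801b.ofSub T N) := fun N =>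
    (hst _).mpr (B4801b.ofSub_stable T N)
  have hA : IsSimpleModule R W' := by
    rw [isSimpleModule_iff_isAtom]
    refine ⟨?_, ?_⟩
    · intro h
      apply hW.2.1
      rw [eq_bot_iff]
      intro x hx
      have : x ∈ W' := hx
      rw [h] at this
      exact this
    · intro N hN
      rcases hW.2.2 (B4801b.ofSub T N) (hofst N) (fun x hx => hN.le hx) with h | h
      · rw [eq_bot_iff]
        intro x hx
        have : x ∈ B4801b.ofSub T N := hx
        rw [h] at this
        exact this
      · exfalso
        apply hN.not_ge
        intro x hx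
        have : x ∈ W := hx
        rw [← h] at this
        exact this
  have hB : IsSimpleModule R (V ⧸ U') := by
    rw [isSimpleModule_iff_isCoatom]
    refine ⟨?_, ?_⟩
    · intro h
      apply hU.2.1
      rw [eq_top_iff]
      intro x _
      have : x ∈ U' := by rw [h]; trivial
      exact this
    · intro N hN
      rcases hU.2.2 (B4801b.ofSub T N) (hofst N) (fun x hx => hN.le hx) with h | h
      · exfalso
        apply hN.not_ge
        intro x hx
        have : x ∈ B4801b.ofSub T N := hx
        rw [h] at this
        exact this
      · rw [eq_top_iff]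
        intro x _
        have : x ∈ B4801b.ofSub T N := by rw [h]; trivial
        exact this
  by_cases hiso : Nonempty ((V ⧸ U') ≃ₗ[R] W')
  · obtain ⟨e⟩ := hiso
    -- the corresponding linear map `V → W`
    let p : V →ₗ[K] W :=
      { toFun := fun x => ⟨((e (U'.mkQ x) : W') : V), (e (U'.mkQ x)).2⟩
        map_add' := fun x y => by
          apply Subtype.ext
          show ((e (U'.mkQ (x + y)) : W') : V) = (e (U'.mkQ x) : W') + (e (U'.mkQ y) : W')
          rw [map_add, map_add]
          rfl
        map_smul' := fun r x => by
          apply Subtype.ext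
          show ((e (U'.mkQ (r • x)) : W') : V) = r • ((e (U'.mkQ x) : W') : V)
          have h1 : r • x = (algebraMap K R r) • x := rfl
          rw [h1, map_smul, map_smul]
          rfl }
    have hker : LinearMap.ker p = U := by
      ext x
      rw [LinearMap.mem_ker]
      constructor
      · intro h
        have h1 : ((e (U'.mkQ x) : W') : V) = 0 := congrArg Subtype.val h
        have h2 : e (U'.mkQ x) = 0 := Subtype.ext h1
        have h3 : U'.mkQ x = 0 := (LinearEquiv.map_eq_zero_iff e).mp h2
        have h4 : x ∈ U' := by simpa using h3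
        exact h4
      · intro h
        have h4 : x ∈ U' := h
        have h3 : U'.mkQ x = 0 := by simpa using h4
        apply Subtype.ext
        show ((e (U'.mkQ x) : W') : V) = 0
        rw [h3, map_zero]
        rfl
    have hsurj : Function.Surjective p := by
      rintro ⟨y, hy⟩
      obtain ⟨x, hx⟩ := U'.mkQ_surjective (e.symm ⟨y, hy⟩)
      refine ⟨x, Subtype.ext ?_⟩
      show ((e (U'.mkQ x) : W') : V) = y
      rw [hx, LinearEquiv.apply_symm_apply]
    refine ⟨(Submodule.quotEquivOfEq _ _ hker.symm).trans (p.quotKerEquivOfSurjective hsurj), ?_⟩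
    intro σ x
    show ((e (U'.mkQ (ρ σ x)) : W') : V) = ρ σ ((e (U'.mkQ x) : W') : V)
    have h1 : ρ σ x = (⟨ρ σ, Algebra.subset_adjoin ⟨σ, rfl⟩⟩ : R) • x := rfl
    rw [h1, map_smul, map_smul]
    rfl
  · exfalso
    let bV := Module.finBasis K V
    let bW := Module.finBasis K W
    obtain ⟨r, hr1, hr2⟩ := exists_separating (R := R) (A := W') (B := V ⧸ U') hiso
      (Finset.univ.image fun i => (⟨(bW i : V), (bW i).2⟩ : W'))
      (Finset.univ.image fun i => U'.mkQ (bV i))
    have hWr : ∀ x ∈ W, (r : Module.End K V) x = x := by
      have h1 : ∀ i, (r : Module.End K V) (bW i : V) = bW i := by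
        intro i
        have h2 := hr1 _ (Finset.mem_image_of_mem _ (Finset.mem_univ i))
        exact congrArg Subtype.val h2
      have h3 : (r : Module.End K V) ∘ₗ W.subtype = W.subtype := bW.ext h1
      intro x hx
      exact LinearMap.congr_fun h3 ⟨x, hx⟩
    have hUr : ∀ x, (r : Module.End K V) x ∈ U := by
      have h1 : ∀ i, U.mkQ ((r : Module.End K V) (bV i)) = 0 := by
        intro i
        have h2 := hr2 _ (Finset.mem_image_of_mem _ (Finset.mem_univ i))
        have h3 : U'.mkQ (r • bV i) = 0 := h2
        have h4 : r • bV i ∈ U' := (Submodule.Quotient.mk_eq_zero U').mp h3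
        have h5 : (r : Module.End K V) (bV i) ∈ U := h4
        simpa using h5
      have h3 : U.mkQ ∘ₗ (r : Module.End K V) = 0 := bV.ext h1
      intro x
      have := LinearMap.congr_fun h3 x
      simpa using this
    obtain ⟨t, ht'⟩ := exists_functional W U
    have h0 : ∀ g, t (ρ g) = 0 := fun g => by
      rw [ht' _ (hW.1 g) (hU.1 g), ht g, sub_self]
    have hsp : ∀ a ∈ Submodule.span K T, t a = 0 := by
      intro a ha
      induction ha using Submodule.span_induction with
      | mem x hx => obtain ⟨g, rfl⟩ := hx; exact h0 g
      | zero => exact map_zero t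
      | add x y _ _ hx hy => rw [map_add, hx, hy, add_zero]
      | smul c x _ hx => rw [map_smul, hx, smul_zero]
    have hspan : ∀ a ∈ R, t a = 0 := by
      intro a ha
      have h1 : a ∈ Subalgebra.toSubmodule (Algebra.adjoin K T) := ha
      have h2 : (Submonoid.closure T : Set (Module.End K V)) = T := by
        have h3 : Submonoid.closure T = MonoidHom.mrange ρ := by
          show Submonoid.closure (Set.range ρ) = _
          rw [← MonoidHom.coe_mrange, Submonoid.closure_eq]
        rw [h3]
        rfl
      rw [Algebra.adjoin_eq_span, h2] at h1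
      exact hsp a h1
    have h1 := hspan r r.2
    have ha : ∀ x ∈ W, (r : Module.End K V) x ∈ W := fun x hx => by rw [hWr x hx]; exact hx
    have hb : U ≤ U.comap (r : Module.End K V) := fun x _ => hUr x
    rw [ht' _ ha hb] at h1
    have h2 : (r : Module.End K V).restrict ha = 1 := by
      apply LinearMap.ext
      rintro ⟨x, hx⟩
      exact Subtype.ext (hWr x hx)
    have h3 : U.mapQ U (r : Module.End K V) hb = 0 := by
      apply LinearMap.ext
      intro x
      obtain ⟨x, rfl⟩ := U.mkQ_surjective x
      have : U.mkQ ((r : Module.End K V) x) = 0 := by simpa using hUr x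
      exact this
    rw [h2, h3, map_zero, sub_zero, LinearMap.trace_one] at h1
    have h4 : finrank K W = 0 := by exact_mod_cast h1
    exact hW.2.1 (Submodule.finrank_eq_zero.mp h4)

end Pool.Agent.B4801bSq
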