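import Pool.Agent.W_b4801b_h24.Count
import Pool.Agent.W_b4801b_h24.Jac

set_option autoImplicit false

/-! Near an element with the maximal number of eigenvalues two constituents with the same
characteristic polynomial have the same trace. -/

noncomputable section

open Polynomial Module Filter Topology

universe u v

namespace Pool.Agent.B4801bSq

open Pool.Agent.B4801b

/-- Linear functionals of a continuous representation are continuous. -/
theorem continuous_functional {K : Type*} [Field K] [TopologicalSpace K] [IsTopologicalRing K]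
    {V : Type*} [AddCommGroup V] [Module K V] [FiniteDimensional K V] {G : Type*} [Group G]
    [TopologicalSpace G] (ρ : Representation K G V) (hρ : IsContinuousRep ρ)
    (t : Module.End K V →ₗ[K] K) : Continuous fun g => t (ρ g) := by
  classical
  let b := Module.finBasis K V
  have h1 : ∀ g, t (ρ g) = ∑ p, (b.linearMap b).repr (ρ g) p * t (b.linearMap b p) := by
    intro g
    conv_lhs => rw [← (b.linearMap b).sum_repr (ρ g)]
    rw [map_sum]
    refine Finset.sum_congr rfl fun p _ => ?_
    rw [map_smul, smul_eq_mul]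
  have h2 : (fun g => t (ρ g)) =
      fun g => ∑ p, (b.linearMap b).repr (ρ g) p * t (b.linearMap b p) := funext h1
  rw [h2]
  refine continuous_finsetSum _ fun p _ => Continuous.mul ?_ continuous_const
  have h3 : (fun g => (b.linearMap b).repr (ρ g) p) = fun g => b.coord p.1 (ρ g (b p.2)) := by
    funext g
    obtain ⟨i, j⟩ := p
    rw [Basis.linearMap_repr_apply]
    have h4 : ∀ M : Matrix (Fin (finrank K V)) (Fin (finrank K V)) K,
        (Matrix.stdBasis K (Fin (finrank K V)) (Fin (finrank K V))).repr M (i, j) = M i j := by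
      intro M
      rfl
    rw [h4, LinearMap.toMatrix_apply]
    rfl
  rw [h3]
  exact hρ (b.coord p.1) (b p.2)

/-- The traces of the powers, from the characteristic polynomial. -/
theorem trace_pow_eq_of_charpoly {K : Type*} [Field K] {A B : Type*} [AddCommGroup A] [Module K A]
    [FiniteDimensional K A] [AddCommGroup B] [Module K B] [FiniteDimensional K B]
    (f : Module.End K A) (g : Module.End K B) (h : f.charpoly = g.charpoly) (j : ℕ) :
    LinearMap.trace K A (f ^ j) = LinearMap.trace K B (g ^ j) := by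
  apply (algebraMap K (AlgebraicClosure K)).injective
  rw [trace_pow_aroots, trace_pow_aroots, h]

theorem trace_eq_near {K : Type*} [Field K] [TopologicalSpace K] [IsTopologicalRing K] [T1Space K]
    [ContinuousInv₀ K] [CharZero K]
    {V : Type*} [AddCommGroup V] [Module K V] [FiniteDimensional K V] {G : Type*} [Group G]
    [TopologicalSpace G] [IsTopologicalGroup G] (ρ : Representation K G V)
    (hρ : IsContinuousRep ρ) (D : ℕ) (hmax : ∀ g : G, (eig (ρ g)).card ≤ D) (γ : G)
    (hγ : (eig (ρ γ)).card = D) (W U : Submodule K V) (hW : Stable ρ W) (hU : Stable ρ U)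
    (hch : LinearMap.charpoly ((ρ γ).restrict (hW γ)) = LinearMap.charpoly (U.mapQ U (ρ γ) (hU γ))) :
    ∀ᶠ g in 𝓝 γ, LinearMap.trace K W ((ρ g).restrict (hW g)) =
      LinearMap.trace K (V ⧸ U) (U.mapQ U (ρ g) (hU g)) := by
  obtain ⟨t, ht⟩ := exists_functional W U
  have hApow : ∀ (g : G) (j : ℕ), ((ρ g).restrict (hW g)) ^ j = (ρ (g ^ j)).restrict (hW (g ^ j)) := by
    intro g j
    rw [Module.End.pow_restrict]
    congr 1
    rw [map_pow]
  have hBpow : ∀ (g : G) (j : ℕ), (U.mapQ U (ρ g) (hU g)) ^ j =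
      U.mapQ U (ρ (g ^ j)) (hU (g ^ j)) := by
    intro g j
    rw [← Submodule.mapQ_pow]
    congr 1
    rw [map_pow]
  have hδ : ∀ (g : G) (j : ℕ), t (ρ (g ^ j)) =
      LinearMap.trace K W (((ρ g).restrict (hW g)) ^ j) -
        LinearMap.trace K (V ⧸ U) ((U.mapQ U (ρ g) (hU g)) ^ j) := by
    intro g j
    rw [ht _ (hW _) (hU _), hApow, hBpow]
  have hHank : Continuous fun g => hankel D (ρ g) := by
    refine continuous_matrix fun i j => ?_
    have h1 := (continuous_functional ρ hρ (LinearMap.trace K V)).comp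
      (continuous_pow ((i : ℕ) + (j : ℕ)))
    refine h1.congr fun g => ?_
    show LinearMap.trace K V (ρ (g ^ ((i : ℕ) + (j : ℕ)))) = _
    rw [map_pow]
    rfl
  have hδc : Continuous fun g => (fun j : Fin D => t (ρ (g ^ (j : ℕ)))) :=
    continuous_pi fun j => (continuous_functional ρ hρ t).comp (continuous_pow (j : ℕ))
  have hdivA : ∀ g, eig ((ρ g).restrict (hW g)) ⊆ eig (ρ g) := fun g => eig_subset _ _ (by
    rw [charpoly_mul W (ρ g) (hW g)]
    exact dvd_mul_right _ _)
  have hdivB : ∀ g, eig (U.mapQ U (ρ g) (hU g)) ⊆ eig (ρ g) := fun g => eig_subset _ _ (by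
    rw [charpoly_mul U (ρ g) (hU g)]
    exact dvd_mul_left _ _)
  have hnat := fun (g : G) (hg : (eig (ρ g)).card = D) =>
    eform_nat (ρ g) D hg ((ρ g).restrict (hW g)) (U.mapQ U (ρ g) (hU g)) (hdivA g) (hdivB g)
      (Submodule.finrank_le W) (Submodule.finrank_quotient_le U)
  set b := finrank K V with hb
  let F : G → K := fun g => (b.factorial : K) *
    Eform (hankel D (ρ g)) (fun j : Fin D => t (ρ (g ^ (j : ℕ))))
  have hdetγ : (hankel D (ρ γ)).det ≠ 0 := (hnat γ hγ).1
  have hF : ContinuousAt F γ := by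
    refine ContinuousAt.mul continuousAt_const (ContinuousAt.mul ?_ ?_)
    · exact ContinuousAt.inv₀ (hHank.matrix_det).continuousAt hdetγ
    · exact (Continuous.dotProduct hδc
        ((hHank.matrix_adjugate).matrix_mulVec hδc)).continuousAt
  have hFγ : F γ = 0 := by
    have h1 : (fun j : Fin D => t (ρ (γ ^ (j : ℕ)))) = 0 := by
      funext j
      rw [hδ, trace_pow_eq_of_charpoly _ _ hch, sub_self]
      rfl
    show (b.factorial : K) * (_ * _) = 0
    rw [h1, zero_dotProduct, mul_zero, mul_zero]
  set N := b * (b ^ 2 * b.factorial) with hN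
  let T : Set K := (fun n : ℕ => (n : K)) '' (Finset.Icc 1 N : Set ℕ)
  have hT : T.Finite := (Finset.finite_toSet _).image _
  have h0T : F γ ∉ T := by
    rw [hFγ]
    rintro ⟨n, hn, h0⟩
    rw [Finset.mem_coe, Finset.mem_Icc] at hn
    have h0' : (n : K) = 0 := h0
    have : n = 0 := by exact_mod_cast h0'
    omega
  have hev1 : ∀ᶠ g in 𝓝 γ, F g ∉ T := hF.eventually (hT.isClosed.isOpen_compl.mem_nhds h0T)
  have hev2 : ∀ᶠ g in 𝓝 γ, (hankel D (ρ g)).det ≠ 0 :=
    (hHank.matrix_det).continuousAt.eventually_ne hdetγ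
  filter_upwards [hev1, hev2] with g hg1 hg2
  have hcard : (eig (ρ g)).card = D := le_antisymm (hmax g) (le_card_of_det D (ρ g) hg2)
  obtain ⟨_, s, hs1, hs2, hs3⟩ := hnat g hcard
  apply hs3
  have h1 : F g = s := by
    rw [← hs2]
    show (b.factorial : K) * Eform _ _ = _
    congr 2
    funext j
    exact hδ g j
  by_contra hs0
  apply hg1
  refine ⟨s, ?_, h1.symm⟩
  rw [Finset.mem_coe, Finset.mem_Icc]
  exact ⟨Nat.one_le_iff_ne_zero.mpr hs0, hs1⟩

end Pool.Agent.B4801bSq
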