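import Pool.Agent.W_b4801b_h24.Defs
import Pool.Agent.W_MP_b4801b_h67.Main

set_option autoImplicit false

/-! Semisimplicity of a representation with a nondegenerate pairing, in terms of its endomorphisms. -/

noncomputable section

open Polynomial Module

namespace Pool.Agent.B4801bSq

open Pool.Agent.B4801b

variable {K : Type*} [Field K] {V : Type*} [AddCommGroup V] [Module K V] {G : Type*} [Group G]

/-- If every irreducible subrepresentation has a stable complement, the representation is
semisimple. -/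
theorem semisimple_of_irred [FiniteDimensional K V] (ρ : Representation K G V)
    (h : ∀ W : Submodule K V, IrredSub ρ W → ∃ W' : Submodule K V, Stable ρ W' ∧ IsCompl W W') :
    IsSemisimpleRep ρ := by
  have key : ∀ n : ℕ, ∀ W : Submodule K V, Stable ρ W → finrank K W = n →
      ∃ W' : Submodule K V, Stable ρ W' ∧ IsCompl W W' := by
    intro n
    induction n using Nat.strong_induction_on with
    | _ n ih =>
      intro W hW hn
      by_cases hW0 : W = ⊥
      · subst hW0
        exact ⟨⊤, fun _ _ _ => trivial, isCompl_bot_top⟩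
      -- an irreducible subrepresentation of `W`
      obtain ⟨W₁, hW₁, hle⟩ : ∃ W₁, IrredSub ρ W₁ ∧ W₁ ≤ W := by
        have hex : ∃ m : ℕ, ∃ U : Submodule K V, Stable ρ U ∧ U ≠ ⊥ ∧ U ≤ W ∧ finrank K U = m :=
          ⟨_, W, hW, hW0, le_rfl, rfl⟩
        classical
        obtain ⟨U, hU, hU0, hUW, hUm⟩ := Nat.find_spec hex
        refine ⟨U, ⟨hU, hU0, ?_⟩, hUW⟩
        intro T hT hTU
        by_cases hT0 : T = ⊥
        · exact Or.inl hT0
        right
        have h1 := Nat.find_min' hex ⟨T, hT, hT0, hTU.trans hUW, rfl⟩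
        rw [← hUm] at h1
        exact Submodule.eq_of_le_of_finrank_le hTU h1
      obtain ⟨U, hU, hc⟩ := h W₁ hW₁
      have hWU : Stable ρ (W ⊓ U) := fun σ x hx => ⟨hW σ x hx.1, hU σ x hx.2⟩
      have hsup : W₁ ⊔ (W ⊓ U) = W := by
        apply le_antisymm (sup_le hle inf_le_left)
        intro x hx
        have : x ∈ W₁ ⊔ U := by rw [hc.sup_eq_top]; trivial
        obtain ⟨y, hy, z, hz, rfl⟩ := Submodule.mem_sup.mp this
        refine Submodule.mem_sup.mpr ⟨y, hy, z, ⟨?_, hz⟩, rfl⟩
        have : y + z - y ∈ W := W.sub_mem hx (hle hy)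
        simpa using this
      have hlt : finrank K (W ⊓ U : Submodule K V) < n := by
        rw [← hn]
        apply Submodule.finrank_lt_finrank_of_lt
        refine lt_of_le_of_ne inf_le_left ?_
        intro heq
        have h1 : W₁ ≤ U := hle.trans (by rw [← heq]; exact inf_le_right)
        have h2 : W₁ ≤ ⊥ := by
          rw [← hc.inf_eq_bot]
          exact le_inf le_rfl h1
        exact hW₁.2.1 (le_bot_iff.mp h2)
      obtain ⟨U', hU', hc'⟩ := ih _ hlt (W ⊓ U) hWU rfl
      refine ⟨U ⊓ U', fun σ x hx => ⟨hU σ x hx.1, hU' σ x hx.2⟩, ?_, ?_⟩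
      · rw [disjoint_iff]
        have : W ⊓ (U ⊓ U') = (W ⊓ U) ⊓ U' := by rw [inf_assoc]
        rw [this, hc'.inf_eq_bot]
      · rw [codisjoint_iff, eq_top_iff]
        intro x _
        have hx : x ∈ W₁ ⊔ U := by rw [hc.sup_eq_top]; trivial
        obtain ⟨y, hy, z, hz, rfl⟩ := Submodule.mem_sup.mp hx
        have hz' : z ∈ (W ⊓ U) ⊔ U' := by rw [hc'.sup_eq_top]; trivial
        obtain ⟨a, ha, b, hb, hab⟩ := Submodule.mem_sup.mp hz'
        refine Submodule.mem_sup.mpr ⟨y + a, W.add_mem (hle hy) ha.1, b, ⟨?_, hb⟩, ?_⟩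
        · have : b = z - a := by rw [← hab]; abel
          rw [this]
          exact U.sub_mem hz ha.2
        · rw [← hab]; abel
  intro W hW
  exact key _ W hW rfl

theorem IsEndo.mul {ρ : Representation K G V} {f g : Module.End K V} (hf : IsEndo ρ f)
    (hg : IsEndo ρ g) : IsEndo ρ (f * g) := by
  intro σ x
  rw [Module.End.mul_apply, hg, hf, Module.End.mul_apply]

theorem IsEndo.ker {ρ : Representation K G V} {f : Module.End K V} (hf : IsEndo ρ f) :
    Stable ρ (LinearMap.ker f) := by
  intro σ x hx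
  rw [LinearMap.mem_ker] at hx ⊢
  rw [hf, hx, map_zero]

theorem IsEndo.range {ρ : Representation K G V} {f : Module.End K V} (hf : IsEndo ρ f) :
    Stable ρ (LinearMap.range f) := by
  rintro σ _ ⟨x, rfl⟩
  exact ⟨ρ σ x, hf σ x⟩

/-- An endomorphism whose image is an irreducible subrepresentation without stable complement lies in
the radical. -/
theorem mul_mul_eq_zero [FiniteDimensional K V] (ρ : Representation K G V) (n : Module.End K V)
    (hn : IsEndo ρ n) (hW : IrredSub ρ (LinearMap.range n))
    (hno : ¬ ∃ W' : Submodule K V, Stable ρ W' ∧ IsCompl (LinearMap.range n) W')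
    (f : Module.End K V) (hf : IsEndo ρ f) : n * f * n = 0 := by
  have hst : Stable ρ (LinearMap.range n ⊓ LinearMap.ker (n * f)) :=
    fun σ x hx => ⟨hn.range σ x hx.1, (hn.mul hf).ker σ x hx.2⟩
  rcases hW.2.2 _ hst inf_le_left with h | h
  · exfalso
    apply hno
    refine ⟨LinearMap.ker (n * f), (hn.mul hf).ker, ?_, ?_⟩
    · rw [disjoint_iff]; exact h
    · rw [codisjoint_iff]
      apply Submodule.eq_top_of_finrank_eq
      have h1 := Submodule.finrank_sup_add_finrank_inf_eq (LinearMap.range n)
        (LinearMap.ker (n * f))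
      rw [h, finrank_bot, add_zero] at h1
      have h2 := LinearMap.finrank_range_add_finrank_ker (n * f)
      have h3 : finrank K (LinearMap.range (n * f)) ≤ finrank K (LinearMap.range n) := by
        apply Submodule.finrank_mono
        rintro _ ⟨x, rfl⟩
        exact ⟨f x, rfl⟩
      have h4 := Submodule.finrank_le (LinearMap.range n ⊔ LinearMap.ker (n * f))
      omega
  · apply LinearMap.ext
    intro x
    have hx : n x ∈ LinearMap.range n ⊓ LinearMap.ker (n * f) := by
      rw [h]; exact ⟨x, rfl⟩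
    exact hx.2

theorem perp_stable (ρ : Representation K G V) (ψ : LinearMap.BilinForm K V) (m : G → K)
    (hm : Equivariant m ρ ψ) (W : Submodule K V) (hW : Stable ρ W) : Stable ρ (perp ψ W) := by
  intro σ y hy x hx
  have h1 : ρ σ (ρ σ⁻¹ x) = x := by
    rw [← Module.End.mul_apply, ← map_mul, mul_inv_cancel, map_one, Module.End.one_apply]
  have h2 : ψ (ρ σ⁻¹ x) y = 0 := hy _ (hW σ⁻¹ x hx)
  have h3 := hm σ (ρ σ⁻¹ x) y
  rw [h1, h2] at h3
  rcases mul_eq_zero.mp h3 with h | h
  · have : ∀ x y, ψ x y = 0 := fun x y => by rw [← hm σ x y, h, zero_mul]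
    exact this _ _
  · exact h

/-- If the totally isotropic irreducible subrepresentations are self-dual and the endomorphism algebra
is semiprime, then the representation is semisimple. -/
theorem semisimple_of_semiprime [FiniteDimensional K V] (ρ : Representation K G V)
    (ψ : LinearMap.BilinForm K V) (m : G → K) (hm : Equivariant m ρ ψ)
    (hsd : IsotropicSelfDual ρ ψ) (hE : EndoSemiprime ρ) : IsSemisimpleRep ρ := by
  apply semisimple_of_irred
  intro W hW
  by_contra hno
  have hP : Stable ρ (perp ψ W) := perp_stable ρ ψ m hm W hW.1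
  have hst : Stable ρ (W ⊓ perp ψ W) := fun σ x hx => ⟨hW.1 σ x hx.1, hP σ x hx.2⟩
  rcases hW.2.2 _ hst inf_le_left with h | h
  · apply hno
    refine ⟨perp ψ W, hP, isCompl_perp ψ W ?_⟩
    intro x hx hx'
    exact (Submodule.mem_bot K).mp (h ▸ ⟨hx, hx'⟩)
  · have hiso : ∀ x ∈ W, ∀ y ∈ W, ψ x y = 0 := by
      intro x hx y hy
      have : y ∈ W ⊓ perp ψ W := by rw [h]; exact hy
      exact this.2 x hx
    obtain ⟨e, he⟩ := hsd W hW hiso (perp ψ W) (fun y => Iff.rfl)
    let n : Module.End K V := W.subtype ∘ₗ (e : (V ⧸ perp ψ W) →ₗ[K] W) ∘ₗ (perp ψ W).mkQ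
    have hn : IsEndo ρ n := fun σ x => he σ x
    have hr : LinearMap.range n = W := by
      apply le_antisymm
      · rintro _ ⟨x, rfl⟩
        exact (e ((perp ψ W).mkQ x)).2
      · intro x hx
        obtain ⟨y, hy⟩ := (perp ψ W).mkQ_surjective (e.symm ⟨x, hx⟩)
        refine ⟨y, ?_⟩
        show ((e ((perp ψ W).mkQ y) : W) : V) = x
        rw [hy, LinearEquiv.apply_symm_apply]
    have h0 : n = 0 := by
      apply hE n hn
      intro f hf
      exact mul_mul_eq_zero ρ n hn (hr ▸ hW) (hr ▸ hno) f hf
    apply hW.2.1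
    rw [← hr, h0]
    exact LinearMap.range_zero

/-- If the trace form of the endomorphism algebra is nondegenerate, the algebra is semiprime. -/
theorem semiprime_of_trace [FiniteDimensional K V] (ρ : Representation K G V)
    (h : TraceNondeg ρ) : EndoSemiprime ρ := by
  intro n hn hz
  by_contra hne
  obtain ⟨f, hf, htr⟩ := h n hn hne
  apply htr
  have hnil : IsNilpotent (n * f) := by
    refine ⟨2, ?_⟩
    rw [pow_two]
    have := congrArg (· * f) (hz f hf)
    simpa [mul_assoc] using this
  exact (LinearMap.isNilpotent_trace_of_isNilpotent hnil).eq_zero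

/-- The trace form of the endomorphism algebra of a semisimple representation is nondegenerate. -/
theorem trace_of_semisimple [CharZero K] [FiniteDimensional K V] (ρ : Representation K G V)
    (h : IsSemisimpleRep ρ) : TraceNondeg ρ := by
  intro n hn hne
  obtain ⟨U, hU, hcU⟩ := h (LinearMap.ker n) hn.ker
  obtain ⟨C', hC, hcC⟩ := h (LinearMap.range n) hn.range
  -- `n` maps `U` isomorphically onto its image
  have hbij : Function.Bijective (n.rangeRestrict ∘ₗ U.subtype) := by
    constructor
    · rw [injective_iff_map_eq_zero]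
      intro x hx
      have h1 : n (x : V) = 0 := congrArg Subtype.val hx
      have h2 : (x : V) ∈ LinearMap.ker n ⊓ U := ⟨h1, x.2⟩
      rw [hcU.inf_eq_bot] at h2
      exact Subtype.ext ((Submodule.mem_bot K).mp h2)
    · rintro ⟨_, y, rfl⟩
      have : y ∈ LinearMap.ker n ⊔ U := by rw [hcU.sup_eq_top]; trivial
      obtain ⟨a, ha, b, hb, rfl⟩ := Submodule.mem_sup.mp this
      refine ⟨⟨b, hb⟩, Subtype.ext ?_⟩
      show n b = n (a + b)
      rw [map_add, LinearMap.mem_ker.mp ha, zero_add]
  let e : U ≃ₗ[K] LinearMap.range n := LinearEquiv.ofBijective _ hbij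
  have hne' : ∀ x : LinearMap.range n, n (e.symm x : V) = x := by
    intro x
    have := congrArg Subtype.val (e.apply_symm_apply x)
    exact this
  let π : V →ₗ[K] LinearMap.range n := (LinearMap.range n).projectionOnto C' hcC
  let f : Module.End K V := U.subtype ∘ₗ (e.symm : LinearMap.range n →ₗ[K] U) ∘ₗ π
  have hπ : ∀ (σ : G) (x : V), (π (ρ σ x) : V) = ρ σ (π x : V) := by
    intro σ x
    have : x ∈ LinearMap.range n ⊔ C' := by rw [hcC.sup_eq_top]; trivial
    obtain ⟨a, ha, b, hb, rfl⟩ := Submodule.mem_sup.mp this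
    have h1 : ∀ z (hz : z ∈ LinearMap.range n), π z = ⟨z, hz⟩ := fun z hz =>
      Submodule.projectionOnto_apply_left hcC ⟨z, hz⟩
    have h2 : ∀ z ∈ C', π z = 0 := fun z hz => (Submodule.projectionOnto_apply_eq_zero_iff hcC).mpr hz
    rw [map_add, map_add, map_add, h1 _ (hn.range σ a ha), h2 _ (hC σ b hb), h1 a ha, h2 b hb,
      add_zero, add_zero]
  have hf : IsEndo ρ f := by
    intro σ x
    show ((e.symm (π (ρ σ x)) : U) : V) = ρ σ ((e.symm (π x) : U) : V)
    -- both sides lie in `U` and have the same image under `n`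
    have h1 : n ((e.symm (π (ρ σ x)) : U) : V) = n (ρ σ ((e.symm (π x) : U) : V)) := by
      rw [hne', hn, hne', hπ]
    have h2 : ((e.symm (π (ρ σ x)) : U) : V) - ρ σ ((e.symm (π x) : U) : V) ∈
        LinearMap.ker n ⊓ U := by
      refine ⟨LinearMap.mem_ker.mpr ?_, U.sub_mem (e.symm (π (ρ σ x))).2 (hU σ _ (e.symm (π x)).2)⟩
      rw [map_sub, h1, sub_self]
    rw [hcU.inf_eq_bot] at h2
    exact sub_eq_zero.mp ((Submodule.mem_bot K).mp h2)
  refine ⟨f, hf, ?_⟩
  have hproj : LinearMap.IsProj (LinearMap.range n) (n * f) := by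
    constructor
    · intro x
      exact ⟨f x, rfl⟩
    · intro x hx
      show n ((e.symm (π x) : U) : V) = x
      rw [hne']
      exact congrArg Subtype.val (Submodule.projectionOnto_apply_left hcC ⟨x, hx⟩)
  rw [hproj.trace]
  intro h0
  have h1 : finrank K (LinearMap.range n) = 0 := by exact_mod_cast h0
  have h2 : LinearMap.range n = ⊥ := Submodule.finrank_eq_zero.mp h1
  exact hne (LinearMap.range_eq_bot.mp h2)

end Pool.Agent.B4801bSq
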