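import Pool.Agent.W_b4801b_h24.Hankel

set_option autoImplicit false

/-! The difference of two traces, in terms of the Hankel matrix. -/

noncomputable section

open Polynomial Module

namespace Pool.Agent.B4801bSq

variable {K : Type*} [Field K] {V : Type*} [AddCommGroup V] [Module K V] [FiniteDimensional K V]

theorem card_eig_le (f : Module.End K V) : (eig f).card ≤ finrank K V := by
  classical
  unfold eig
  refine (Multiset.toFinset_card_le _).trans ?_
  exact le_of_eq (Pool.Agent.B4801b.card_aroots (AlgebraicClosure K) f)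

theorem eig_subset {A : Type*} [AddCommGroup A] [Module K A] [FiniteDimensional K A]
    (f : Module.End K V) (g : Module.End K A) (h : g.charpoly ∣ f.charpoly) : eig g ⊆ eig f := by
  classical
  intro β hβ
  unfold eig at hβ ⊢
  rw [Multiset.mem_toFinset, mem_aroots] at hβ ⊢
  refine ⟨(LinearMap.charpoly_monic f).ne_zero, ?_⟩
  obtain ⟨q, hq⟩ := h
  rw [hq, map_mul, hβ.2, zero_mul]

theorem hankel_vandermonde (n : ℕ) (f : Module.End K V) (e : Fin n ≃ eig f) :
    (hankel n f).map (algebraMap K (AlgebraicClosure K)) =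
      (Matrix.vandermonde fun i => ((e i : eig f) : AlgebraicClosure K)).transpose *
        Matrix.diagonal (fun i => (mult f (e i) : AlgebraicClosure K)) *
        (Matrix.vandermonde fun i => ((e i : eig f) : AlgebraicClosure K)) := by
  ext i j
  rw [Matrix.map_apply, hankel, Matrix.of_apply, sum_mult (eig f) f (Finset.Subset.refl _),
    Matrix.mul_apply, ← e.sum_comp]
  refine Finset.sum_congr rfl fun β _ => ?_
  rw [Matrix.mul_diagonal, Matrix.transpose_apply, Matrix.vandermonde_apply,
    Matrix.vandermonde_apply, pow_add]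
  ring

theorem eform_nat [CharZero K] (f : Module.End K V) (n : ℕ) (hn : (eig f).card = n)
    {A B : Type*} [AddCommGroup A] [Module K A] [FiniteDimensional K A]
    [AddCommGroup B] [Module K B] [FiniteDimensional K B]
    (fA : Module.End K A) (fB : Module.End K B) (hA : eig fA ⊆ eig f) (hB : eig fB ⊆ eig f)
    (hdA : finrank K A ≤ finrank K V) (hdB : finrank K B ≤ finrank K V) :
    (hankel n f).det ≠ 0 ∧ ∃ t : ℕ,
      t ≤ finrank K V * ((finrank K V) ^ 2 * (finrank K V).factorial) ∧
      ((finrank K V).factorial : K) * Eform (hankel n f)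
        (fun j => LinearMap.trace K A (fA ^ (j : ℕ)) - LinearMap.trace K B (fB ^ (j : ℕ))) = t ∧
      (t = 0 → LinearMap.trace K A fA = LinearMap.trace K B fB) := by
  classical
  set b := finrank K V with hb
  set Ω := AlgebraicClosure K with hΩ
  have : CharZero Ω := charZero_of_injective_algebraMap (algebraMap K Ω).injective
  let e : Fin n ≃ eig f := (Finset.equivFinOfCardEq hn).symm
  let β : Fin n → Ω := fun i => ((e i : eig f) : Ω)
  have hβ : Function.Injective β := fun i j h => e.injective (Subtype.ext h)
  have hm : ∀ i, 0 < mult f (β i) := fun i => mult_pos f _ (e i).2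
  have hmle : ∀ i, mult f (β i) ≤ b := fun i => mult_le f _
  have hm' : ∀ i, (mult f (β i) : Ω) ≠ 0 := fun i => Nat.cast_ne_zero.mpr (hm i).ne'
  let M : Matrix (Fin n) (Fin n) Ω := Matrix.vandermonde β
  have hM : M.det ≠ 0 := Matrix.det_vandermonde_ne_zero_iff.mpr hβ
  let d : Fin n → ℤ := fun i => (mult fA (β i) : ℤ) - mult fB (β i)
  obtain ⟨h1, h2⟩ := Eform_eval M hM (fun i => (mult f (β i) : Ω)) (fun i => (d i : Ω)) hm'
  have hmap := hankel_vandermonde n f e
  have hδ : ∀ j : Fin n, algebraMap K Ω (LinearMap.trace K A (fA ^ (j : ℕ)) -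
      LinearMap.trace K B (fB ^ (j : ℕ))) = M.transpose.mulVec (fun i => (d i : Ω)) j := by
    intro j
    rw [map_sub, sum_mult (eig f) fA hA, sum_mult (eig f) fB hB, ← Finset.sum_sub_distrib,
      ← e.sum_comp, Matrix.mulVec, dotProduct]
    refine Finset.sum_congr rfl fun i _ => ?_
    rw [Matrix.transpose_apply]
    show _ = β i ^ (j : ℕ) * _
    push_cast [d]
    ring
  have hdet : (hankel n f).det ≠ 0 := by
    intro h0
    apply h1
    have h3 := RingHom.map_det (algebraMap K Ω) (hankel n f)
    rw [h0, map_zero, RingHom.mapMatrix_apply, hmap] at h3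
    exact h3.symm
  refine ⟨hdet, ∑ i, (d i).natAbs ^ 2 * (b.factorial / mult f (β i)), ?_, ?_, ?_⟩
  · have hterm : ∀ i, (d i).natAbs ^ 2 * (b.factorial / mult f (β i)) ≤ b ^ 2 * b.factorial := by
      intro i
      have h3 : (d i).natAbs ≤ b := by
        have h4 : mult fA (β i) ≤ b := (mult_le fA _).trans hdA
        have h5 : mult fB (β i) ≤ b := (mult_le fB _).trans hdB
        have : (d i) = (mult fA (β i) : ℤ) - mult fB (β i) := rfl
        omega
      exact Nat.mul_le_mul (Nat.pow_le_pow_left h3 2) (Nat.div_le_self _ _)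
    refine (Finset.sum_le_sum fun i _ => hterm i).trans ?_
    rw [Finset.sum_const, Finset.card_univ, Fintype.card_fin, smul_eq_mul]
    exact Nat.mul_le_mul_right _ (hn ▸ card_eig_le f)
  · apply (algebraMap K Ω).injective
    rw [map_mul, Eform_map, hmap, map_natCast, map_natCast]
    have h3 : (fun i : Fin n => algebraMap K Ω (LinearMap.trace K A (fA ^ (i : ℕ)) -
        LinearMap.trace K B (fB ^ (i : ℕ)))) = M.transpose.mulVec (fun i => (d i : Ω)) :=
      funext hδ
    rw [h3]
    change (b.factorial : Ω) * Eform (M.transpose * Matrix.diagonal (fun i => (mult f (β i) : Ω)) * M)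
      _ = _
    rw [h2, Finset.mul_sum, Nat.cast_sum]
    refine Finset.sum_congr rfl fun i _ => ?_
    have h4 : mult f (β i) ∣ b.factorial := Nat.dvd_factorial (hm i) (hmle i)
    rw [Nat.cast_mul, Nat.cast_pow, Nat.cast_div h4 (hm' i)]
    have h5 : (((d i).natAbs : ℕ) : Ω) ^ 2 = (d i : Ω) ^ 2 := by
      rcases Int.natAbs_eq (d i) with h | h
      · have h7 := congrArg (fun z : ℤ => (z : Ω)) h
        simp only [Int.cast_natCast] at h7
        rw [← h7]
      · have h7 := congrArg (fun z : ℤ => (z : Ω)) h
        simp only [Int.cast_neg, Int.cast_natCast] at h7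
        rw [h7, neg_sq]
    rw [h5]
    ring
  · intro ht
    have hd : ∀ i, d i = 0 := by
      intro i
      have h3 := (Finset.sum_eq_zero_iff.mp ht) i (Finset.mem_univ i)
      rcases Nat.mul_eq_zero.mp h3 with h4 | h4
      · exact Int.natAbs_eq_zero.mp (pow_eq_zero_iff (two_ne_zero)|>.mp h4)
      · exfalso
        have h5 : mult f (β i) ∣ b.factorial := Nat.dvd_factorial (hm i) (hmle i)
        have h6 := Nat.div_mul_cancel h5
        rw [h4, zero_mul] at h6
        exact (Nat.factorial_pos b).ne h6
    apply (algebraMap K Ω).injective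
    have h3 := sum_mult (eig f) fA hA 1
    have h4 := sum_mult (eig f) fB hB 1
    rw [pow_one] at h3 h4
    rw [h3, h4]
    refine Finset.sum_congr rfl fun z _ => ?_
    obtain ⟨i, rfl⟩ := e.surjective z
    have h5 : (mult fA (β i) : ℤ) = mult fB (β i) := by
      have := hd i
      have h6 : (d i) = (mult fA (β i) : ℤ) - mult fB (β i) := rfl
      omega
    have h6 : mult fA (β i) = mult fB (β i) := by exact_mod_cast h5
    change (mult fA (β i) : Ω) * _ = (mult fB (β i) : Ω) * _
    rw [h6]

end Pool.Agent.B4801bSq
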