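import Pool.Agent.W_MP_b4801b_h67.Defs

set_option autoImplicit false

/-!
# Endomorphisms of a Galois representation and semisimplicity

Definitions for the criterion of `MP_b4801b_ag` in terms of the endomorphism algebra of `V_ℓ`
(that is, of the Tate classes on the square of the variety).
-/

noncomputable section

open Polynomial Module

universe u v

namespace Pool.Agent.B4801bSq

open Pool.Agent.B4801b

section Generic

variable {K : Type*} [Field K] {V : Type*} [AddCommGroup V] [Module K V] {G : Type*} [Group G]

/-- The subspace `W` is stable under the group `G`. -/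
def Stable (ρ : Representation K G V) (W : Submodule K V) : Prop :=
  ∀ σ : G, ∀ x ∈ W, ρ σ x ∈ W

/-- The linear map `f` is an endomorphism of the representation. -/
def IsEndo (ρ : Representation K G V) (f : Module.End K V) : Prop :=
  ∀ (σ : G) (x : V), f (ρ σ x) = ρ σ (f x)

/-- The trace form `(n, f) ↦ tr(n f)` of the endomorphism algebra of the representation is
nondegenerate. -/
def TraceNondeg (ρ : Representation K G V) : Prop :=
  ∀ n : Module.End K V, IsEndo ρ n → n ≠ 0 →
    ∃ f : Module.End K V, IsEndo ρ f ∧ LinearMap.trace K V (n * f) ≠ 0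

/-- The endomorphism algebra `E` of the representation is semiprime: `n E n = 0` only for `n = 0`
(for finite dimensional `V` this means that `E` is a semisimple algebra). -/
def EndoSemiprime (ρ : Representation K G V) : Prop :=
  ∀ n : Module.End K V, IsEndo ρ n → (∀ f : Module.End K V, IsEndo ρ f → n * f * n = 0) → n = 0

/-- `W` is an irreducible subrepresentation. -/
def IrredSub (ρ : Representation K G V) (W : Submodule K V) : Prop :=
  Stable ρ W ∧ W ≠ ⊥ ∧ ∀ U : Submodule K V, Stable ρ U → U ≤ W → U = ⊥ ∨ U = W

/-- `V / U` is an irreducible quotient representation. -/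
def IrredQuot (ρ : Representation K G V) (U : Submodule K V) : Prop :=
  Stable ρ U ∧ U ≠ ⊤ ∧ ∀ T : Submodule K V, Stable ρ T → U ≤ T → T = U ∨ T = ⊤

/-- The quotient representation `V / U` is isomorphic to the subrepresentation `W`. -/
def QuotIsoSub (ρ : Representation K G V) (U W : Submodule K V) : Prop :=
  ∃ e : (V ⧸ U) ≃ₗ[K] W, ∀ (σ : G) (x : V), (e (U.mkQ (ρ σ x)) : V) = ρ σ (e (U.mkQ x) : V)

/-- The characteristic polynomial of `ρ(φ)` separates the irreducible subrepresentations and the
irreducible quotients of `V`: an irreducible subrepresentation `W` and an irreducible quotient `V / U`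
on which `ρ(φ)` has the same characteristic polynomial are isomorphic. -/
def Separates [FiniteDimensional K V] (ρ : Representation K G V) (φ : G) : Prop :=
  ∀ (W U : Submodule K V) (hW : IrredSub ρ W) (hU : IrredQuot ρ U),
    LinearMap.charpoly ((ρ φ).restrict (hW.1 φ)) = LinearMap.charpoly (U.mapQ U (ρ φ) (hU.1 φ)) →
      QuotIsoSub ρ U W

/-- Every totally isotropic irreducible subrepresentation `W` is isomorphic to its dual, that is, to the
quotient of `V` by the orthogonal of `W`. -/
def IsotropicSelfDual (ρ : Representation K G V) (ψ : LinearMap.BilinForm K V) : Prop :=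
  ∀ W : Submodule K V, IrredSub ρ W → (∀ x ∈ W, ∀ y ∈ W, ψ x y = 0) →
    ∀ U : Submodule K V, (∀ y, y ∈ U ↔ ∀ x ∈ W, ψ x y = 0) → QuotIsoSub ρ U W

/-- Tate's conjecture and numerical equivalence = homological equivalence for correspondences, as a
property of a rational vector space `C` of endomorphisms of `V` (the algebraic correspondences on
`X × X`): they commute with the Galois group and span all endomorphisms of the representation over
`K`, the trace form takes rational values on `C`, and it is nondegenerate on `C`. -/
structure IsTateSquare [Algebra ℚ K] (ρ : Representation K G V) (C : Set (Module.End K V)) : Prop where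
  endo : ∀ a ∈ C, IsEndo ρ a
  add_mem : ∀ a ∈ C, ∀ b ∈ C, a + b ∈ C
  smul_mem : ∀ (r : ℚ), ∀ a ∈ C, algebraMap ℚ K r • a ∈ C
  tate : ∀ f : Module.End K V, IsEndo ρ f → f ∈ Submodule.span K C
  rational : ∀ a ∈ C, ∀ b ∈ C, ∃ r : ℚ, LinearMap.trace K V (a * b) = algebraMap ℚ K r
  nondeg : ∀ a ∈ C, a ≠ 0 → ∃ b ∈ C, LinearMap.trace K V (a * b) ≠ 0

/-- The linear map `f` is a potential endomorphism of the representation: it commutes with `ρ(u)` for
all `u` in some open subgroup of `G` (for `V = H^i(X)`: a Tate class on `X × X` over the algebraic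
closure). -/
def IsPotEndo [TopologicalSpace G] (ρ : Representation K G V) (f : Module.End K V) : Prop :=
  ∃ U : Subgroup G, IsOpen (U : Set G) ∧ ∀ u ∈ U, ∀ x : V, f (ρ u x) = ρ u (f x)

/-- The trace form `(n, f) ↦ tr(n f)` of the algebra of the potential endomorphisms is
nondegenerate. -/
def PotTraceNondeg [TopologicalSpace G] (ρ : Representation K G V) : Prop :=
  ∀ n : Module.End K V, IsPotEndo ρ n → n ≠ 0 →
    ∃ f : Module.End K V, IsPotEndo ρ f ∧ LinearMap.trace K V (n * f) ≠ 0

/-- The algebra `E` of the potential endomorphisms is semiprime: `n E n = 0` only for `n = 0` (for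
finite dimensional `V` this means that `E` is a semisimple algebra). -/
def PotEndoSemiprime [TopologicalSpace G] (ρ : Representation K G V) : Prop :=
  ∀ n : Module.End K V, IsPotEndo ρ n →
    (∀ f : Module.End K V, IsPotEndo ρ f → n * f * n = 0) → n = 0

/-- Tate's conjecture over the algebraic closure and numerical equivalence = homological equivalence
for correspondences, as a property of a set `C` of endomorphisms of `V` (the algebraic correspondences
on `X × X` over the algebraic closure), which is a rational vector space: they are potential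
endomorphisms and span all potential endomorphisms over `K`, the trace form takes rational values on
`C`, and it is nondegenerate on `C`. -/
structure IsPotTateSquare [Algebra ℚ K] [TopologicalSpace G] (ρ : Representation K G V)
    (C : Set (Module.End K V)) : Prop where
  endo : ∀ a ∈ C, IsPotEndo ρ a
  add_mem : ∀ a ∈ C, ∀ b ∈ C, a + b ∈ C
  smul_mem : ∀ (r : ℚ), ∀ a ∈ C, algebraMap ℚ K r • a ∈ C
  tate : ∀ f : Module.End K V, IsPotEndo ρ f → f ∈ Submodule.span K C
  rational : ∀ a ∈ C, ∀ b ∈ C, ∃ r : ℚ, LinearMap.trace K V (a * b) = algebraMap ℚ K r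
  nondeg : ∀ a ∈ C, a ≠ 0 → ∃ b ∈ C, LinearMap.trace K V (a * b) ≠ 0

end Generic

end Pool.Agent.B4801bSq
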