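import Pool.Agent.W_b4801b_h24.Core
import Pool.Agent.W_MP_b4801b_h67.Rel

set_option autoImplicit false

/-! The characteristic polynomial of a similitude on an isotropic subspace and on the dual quotient. -/

noncomputable section

open Polynomial Module

namespace Pool.Agent.B4801bSq

open Pool.Agent.B4801b

variable {K : Type*} [Field K] {V : Type*} [AddCommGroup V] [Module K V] {G : Type*} [Group G]

theorem aroots_ne_zero (g : K[X]) (h0 : g.coeff 0 ≠ 0) (a : AlgebraicClosure K)
    (ha : a ∈ g.aroots (AlgebraicClosure K)) : a ≠ 0 := by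
  rintro rfl
  rw [mem_aroots] at ha
  apply h0
  have := ha.2
  rw [← map_zero (algebraMap K (AlgebraicClosure K)),
    Polynomial.aeval_algebraMap_apply_eq_algebraMap_eval, ← Polynomial.coeff_zero_eq_eval_zero] at this
  simpa using this

/-- The roots of a self-dual irreducible polynomial are permuted by `a ↦ c / a`. -/
theorem aroots_map_irred [CharZero K] (c : K) (hc : c ≠ 0) (g : K[X]) (hg : Irreducible g)
    (h0 : g.coeff 0 ≠ 0) (hd : SelfDualPoly c g) :
    (g.aroots (AlgebraicClosure K)).map (fun a => algebraMap K (AlgebraicClosure K) c / a) =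
      g.aroots (AlgebraicClosure K) := by
  have hc' : algebraMap K (AlgebraicClosure K) c ≠ 0 := by simpa using hc
  have hnd : (g.aroots (AlgebraicClosure K)).Nodup := nodup_aroots_iff_of_splits hg.ne_zero
    (IsAlgClosed.splits _) |>.mpr hg.separable
  have hnd' : ((g.aroots (AlgebraicClosure K)).map
      (fun a => algebraMap K (AlgebraicClosure K) c / a)).Nodup := by
    refine Multiset.Nodup.map_on ?_ hnd
    intro a ha b hb hab
    have hab' : (algebraMap K (AlgebraicClosure K) c) * a⁻¹ = (algebraMap K (AlgebraicClosure K) c) * b⁻¹ := by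
      rw [← div_eq_mul_inv, ← div_eq_mul_inv]; exact hab
    exact inv_injective (mul_left_cancel₀ hc' hab')
  apply Multiset.eq_of_le_of_card_le
  · rw [Multiset.le_iff_subset hnd']
    intro b hb
    rw [Multiset.mem_map] at hb
    obtain ⟨a, ha, rfl⟩ := hb
    rw [mem_aroots] at ha ⊢
    exact ⟨ha.1, hd a ha.2⟩
  · rw [Multiset.card_map]

/-- The same for a polynomial all of whose irreducible factors are self-dual. -/
theorem aroots_map [CharZero K] (c : K) (hc : c ≠ 0) (n : ℕ) : ∀ (p : K[X]), p.natDegree = n → p ≠ 0 →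
    p.coeff 0 ≠ 0 → (∀ g : K[X], Irreducible g → g ∣ p → SelfDualPoly c g) →
    (p.aroots (AlgebraicClosure K)).map (fun a => algebraMap K (AlgebraicClosure K) c / a) =
      p.aroots (AlgebraicClosure K) := by
  induction n using Nat.strong_induction_on with
  | _ n ih =>
    intro p hn hp h0 hd
    by_cases hu : IsUnit p
    · obtain ⟨r, hr, rfl⟩ := Polynomial.isUnit_iff.mp hu
      simp
    · obtain ⟨g, hg, q, rfl⟩ := WfDvdMonoid.exists_irreducible_factor hu hp
      have hq : q ≠ 0 := right_ne_zero_of_mul hp
      rw [Polynomial.mul_coeff_zero] at h0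
      have h1 := aroots_map_irred c hc g hg (left_ne_zero_of_mul h0) (hd g hg (dvd_mul_right _ _))
      have h2 := ih q.natDegree (by
        rw [← hn, Polynomial.natDegree_mul hg.ne_zero hq]
        have := hg.natDegree_pos
        omega) q rfl hq (right_ne_zero_of_mul h0) (fun g' hg' hdv => hd g' hg' (hdv.mul_left _))
      rw [Polynomial.aroots_mul (mul_ne_zero hg.ne_zero hq), Multiset.map_add, h1, h2]

/-- The dual characteristic polynomial of a similitude with self-dual irreducible factors. -/
theorem charpoly_dual_eq [CharZero K] {U : Type*} [AddCommGroup U] [Module K U]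
    [FiniteDimensional K U] (B : U ≃ₗ[K] U) (c : K) (hc : c ≠ 0)
    (hd : ∀ g : K[X], Irreducible g → g ∣ (B : U →ₗ[K] U).charpoly → SelfDualPoly c g) :
    LinearMap.charpoly (c • (B.symm : U →ₗ[K] U).dualMap) = (B : U →ₗ[K] U).charpoly := by
  apply Polynomial.map_injective (algebraMap K (AlgebraicClosure K))
    (algebraMap K (AlgebraicClosure K)).injective
  have h0 : (B : U →ₗ[K] U).charpoly.coeff 0 ≠ 0 := by
    intro h
    have h1 := LinearMap.det_eq_sign_charpoly_coeff (B : U →ₗ[K] U)
    rw [h, mul_zero] at h1
    exact B.isUnit_det'.ne_zero h1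
  have h1 := aroots_map c hc _ (B : U →ₗ[K] U).charpoly rfl (LinearMap.charpoly_monic _).ne_zero h0 hd
  rw [charpoly_dual_map, charpoly_map_eq_prod]
  conv_rhs => rw [← h1]
  rw [Multiset.map_map]
  rfl

/-- For an isotropic stable subspace `W` of a similitude `A` of ratio `c`, all of whose irreducible
factors are self-dual, `A` has the same characteristic polynomial on `W` and on the quotient by the
orthogonal of `W`. -/
theorem charpoly_quot_perp [CharZero K] [FiniteDimensional K V]
    (ψ : LinearMap.BilinForm K V) (hψ : Nondeg ψ) (A : Module.End K V) (c : K) (hc : c ≠ 0)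
    (hA : ∀ x y, ψ (A x) (A y) = c * ψ x y) (W : Submodule K V) (hW : ∀ x ∈ W, A x ∈ W)
    (hP : perp ψ W ≤ (perp ψ W).comap A)
    (hd : ∀ g : K[X], Irreducible g → g ∣ A.charpoly → SelfDualPoly c g) :
    LinearMap.charpoly (A.restrict hW) = LinearMap.charpoly ((perp ψ W).mapQ (perp ψ W) A hP) := by
  have hinj : ∀ x, A x = 0 → x = 0 := by
    intro x hx
    apply hψ
    intro y
    have := hA x y
    rw [hx, map_zero, LinearMap.zero_apply] at this
    exact (mul_eq_zero.mp this.symm).resolve_left hc
  have hBinj : Function.Injective (A.restrict hW) := by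
    rw [injective_iff_map_eq_zero]
    intro x hx
    apply Subtype.ext
    apply hinj
    exact congrArg Subtype.val hx
  let B : W ≃ₗ[K] W := LinearEquiv.ofInjectiveEndo (A.restrict hW) hBinj
  have hB : (B : W →ₗ[K] W) = A.restrict hW := by
    apply LinearMap.ext
    intro x
    rfl
  let T : V →ₗ[K] Module.Dual K W := (ψ.domRestrict W).flip
  have hTapp : ∀ (y : V) (x : W), T y x = ψ x y := fun y x => rfl
  have hT : Function.Surjective T := by
    rw [← LinearMap.dualMap_injective_iff, injective_iff_map_eq_zero]
    intro f hf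
    obtain ⟨x, rfl⟩ := (Module.evalEquiv K W).surjective f
    have hx : (x : V) = 0 := by
      apply hψ
      intro y
      have := LinearMap.congr_fun hf y
      rw [LinearMap.dualMap_apply, Module.evalEquiv_apply] at this
      exact this
    have hx' : x = 0 := Subtype.ext hx
    rw [hx', map_zero]
  have hTA : ∀ y, T (A y) = (c • (B.symm : W →ₗ[K] W).dualMap) (T y) := by
    intro y
    apply LinearMap.ext
    intro x
    rw [hTapp, LinearMap.smul_apply, LinearMap.smul_apply, LinearMap.dualMap_apply, hTapp]
    have h1 : A ((B.symm x : W) : V) = x := by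
      have := congrArg Subtype.val (B.apply_symm_apply x)
      exact this
    conv_lhs => rw [← h1]
    rw [hA]
    rfl
  have hker : LinearMap.ker T = perp ψ W := by
    ext y
    rw [LinearMap.mem_ker]
    constructor
    · intro hy x hx
      exact LinearMap.congr_fun hy ⟨x, hx⟩
    · intro hy
      ext ⟨x, hx⟩
      exact hy x hx
  let e : (V ⧸ perp ψ W) ≃ₗ[K] Module.Dual K W :=
    (Submodule.quotEquivOfEq _ _ hker.symm).trans (T.quotKerEquivOfSurjective hT)
  have he : ∀ y, e ((perp ψ W).mkQ y) = T y := fun y => rfl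
  have h1 : LinearMap.charpoly ((perp ψ W).mapQ (perp ψ W) A hP) =
      LinearMap.charpoly (c • (B.symm : W →ₗ[K] W).dualMap) := by
    rw [← LinearEquiv.charpoly_conj e ((perp ψ W).mapQ (perp ψ W) A hP)]
    congr 1
    apply LinearMap.ext
    intro z
    obtain ⟨z, rfl⟩ := e.surjective z
    obtain ⟨y, rfl⟩ := (perp ψ W).mkQ_surjective z
    rw [LinearEquiv.conj_apply_apply, LinearEquiv.symm_apply_apply, he, ← hTA]
    rfl
  rw [h1, charpoly_dual_eq B c hc, hB]
  intro g hg hdv
  apply hd g hg
  rw [hB] at hdv
  refine hdv.trans ?_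
  exact charpoly_dvd_of_injective W.subtype W.injective_subtype _ _ (fun x => rfl)

/-- The quotient by the orthogonal of an irreducible subrepresentation is irreducible. -/
theorem irredQuot_perp [FiniteDimensional K V] (ρ : Representation K G V)
    (ψ : LinearMap.BilinForm K V) (hψ : Nondeg ψ) (m : G → K)
    (hm : Equivariant m ρ ψ) (W : Submodule K V) (hW : IrredSub ρ W) :
    IrredQuot ρ (perp ψ W) := by
  refine ⟨perp_stable ρ ψ m hm W hW.1, ?_, ?_⟩
  · intro h
    apply hW.2.1
    rw [eq_bot_iff]
    intro x hx
    rw [Submodule.mem_bot]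
    apply hψ
    intro y
    have : y ∈ perp ψ W := by rw [h]; trivial
    exact this x hx
  · intro T hT hle
    -- the left orthogonal of `T` in `W`
    let A : Submodule K V :=
      { carrier := {x | x ∈ W ∧ ∀ y ∈ T, ψ x y = 0}
        add_mem' := fun ha hb => ⟨W.add_mem ha.1 hb.1, fun y hy => by
          rw [map_add, LinearMap.add_apply, ha.2 y hy, hb.2 y hy, add_zero]⟩
        zero_mem' := ⟨W.zero_mem, fun y _ => by rw [map_zero, LinearMap.zero_apply]⟩
        smul_mem' := fun r x hx => ⟨W.smul_mem r hx.1, fun y hy => by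
          rw [map_smul, LinearMap.smul_apply, hx.2 y hy, smul_zero]⟩ }
    have hA : Stable ρ A := by
      intro σ x hx
      refine ⟨hW.1 σ x hx.1, ?_⟩
      intro y hy
      have h1 : ρ σ (ρ σ⁻¹ y) = y := by
        rw [← Module.End.mul_apply, ← map_mul, mul_inv_cancel, map_one, Module.End.one_apply]
      have h2 : ψ x (ρ σ⁻¹ y) = 0 := hx.2 _ (hT σ⁻¹ y hy)
      have h3 := hm σ x (ρ σ⁻¹ y)
      rw [h1, h2] at h3
      rcases mul_eq_zero.mp h3 with h | h
      · have : ∀ x y, ψ x y = 0 := fun x y => by rw [← hm σ x y, h, zero_mul]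
        exact this _ _
      · exact h
    rcases hW.2.2 A hA (fun x hx => hx.1) with h | h
    · right
      -- the restriction of `V → W^*` to `T` is surjective
      let S : T →ₗ[K] Module.Dual K W := (ψ.domRestrict W).flip ∘ₗ T.subtype
      have hS : Function.Surjective S := by
        rw [← LinearMap.dualMap_injective_iff, injective_iff_map_eq_zero]
        intro f hf
        obtain ⟨x, rfl⟩ := (Module.evalEquiv K W).surjective f
        have hx : (x : V) ∈ A := by
          refine ⟨x.2, fun y hy => ?_⟩
          have := LinearMap.congr_fun hf ⟨y, hy⟩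
          rw [LinearMap.dualMap_apply, Module.evalEquiv_apply] at this
          exact this
        rw [h, Submodule.mem_bot] at hx
        have hx' : x = 0 := Subtype.ext hx
        rw [hx', map_zero]
      rw [eq_top_iff]
      intro v _
      obtain ⟨t, ht⟩ := hS ((ψ.domRestrict W).flip v)
      have h1 : v - t ∈ perp ψ W := by
        intro x hx
        have := LinearMap.congr_fun ht ⟨x, hx⟩
        have h2 : ψ x t = ψ x v := this
        rw [map_sub, h2, sub_self]
      have h3 : v = (v - t) + t := by abel
      rw [h3]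
      exact T.add_mem (hle h1) t.2
    · left
      apply le_antisymm _ hle
      intro y hy x hx
      have : x ∈ A := by rw [h]; exact hx
      exact this.2 y hy

/-- Self-duality of the isotropic irreducible subrepresentations, from one element `φ`. -/
theorem isotropicSelfDual [CharZero K] [FiniteDimensional K V] (ρ : Representation K G V)
    (ψ : LinearMap.BilinForm K V) (hψ : Nondeg ψ) (m : G → K) (hm : Equivariant m ρ ψ)
    (φ : G) (c : K) (hc : c ≠ 0) (hφc : ∀ x y, ψ (ρ φ x) (ρ φ y) = c * ψ x y)
    (hd : ∀ g : K[X], Irreducible g → g ∣ (ρ φ).charpoly → SelfDualPoly c g)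
    (hsep : Separates ρ φ) : IsotropicSelfDual ρ ψ := by
  intro W hW _ U hU
  obtain rfl : U = perp ψ W := by
    ext y
    exact hU y
  have hQ := irredQuot_perp ρ ψ hψ m hm W hW
  exact hsep W _ hW hQ (charpoly_quot_perp ψ hψ (ρ φ) c hc hφc W (hW.1 φ) (hQ.1 φ) hd)

end Pool.Agent.B4801bSq
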