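import Pool.Agent.W_b4801b_h24.Dual
import Pool.Agent.W_MP_a3c811_h79.Newton

set_option autoImplicit false

/-! Hankel matrices of traces of powers. -/

noncomputable section

open Polynomial Module

namespace Pool.Agent.B4801bSq

variable {K : Type*} [Field K] {V : Type*} [AddCommGroup V] [Module K V] [FiniteDimensional K V]

/-- The trace of a power is the sum of the powers of the eigenvalues. -/
theorem trace_pow_aroots (f : Module.End K V) (j : ℕ) :
    algebraMap K (AlgebraicClosure K) (LinearMap.trace K V (f ^ j)) =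
      ((f.charpoly.aroots (AlgebraicClosure K)).map (fun z => z ^ j)).sum := by
  have h1 := Pool.Agent.H79R.trace_pow_eq_roots (f.baseChange (AlgebraicClosure K)) j
  rw [LinearMap.charpoly_baseChange] at h1
  rw [← LinearMap.trace_baseChange, LinearMap.baseChange_pow]
  exact h1

/-- The set of the eigenvalues. -/
def eig (f : Module.End K V) : Finset (AlgebraicClosure K) :=
  letI := Classical.decEq (AlgebraicClosure K)
  (f.charpoly.aroots (AlgebraicClosure K)).toFinset

/-- The multiplicity of an eigenvalue. -/
def mult (f : Module.End K V) (β : AlgebraicClosure K) : ℕ :=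
  letI := Classical.decEq (AlgebraicClosure K)
  (f.charpoly.aroots (AlgebraicClosure K)).count β

/-- The Hankel matrix of the traces of the powers. -/
def hankel (n : ℕ) (f : Module.End K V) : Matrix (Fin n) (Fin n) K :=
  Matrix.of fun i j => LinearMap.trace K V (f ^ ((i : ℕ) + (j : ℕ)))

/-- The powers of the eigenvalues. -/
def powM (n : ℕ) (S : Finset (AlgebraicClosure K)) : Matrix S (Fin n) (AlgebraicClosure K) :=
  Matrix.of fun β j => (β : AlgebraicClosure K) ^ (j : ℕ)

theorem sum_mult {A : Type*} [AddCommGroup A] [Module K A] [FiniteDimensional K A]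
    (S : Finset (AlgebraicClosure K)) (f : Module.End K A) (hS : eig f ⊆ S) (j : ℕ) :
    algebraMap K (AlgebraicClosure K) (LinearMap.trace K A (f ^ j)) =
      ∑ β : S, (mult f β : AlgebraicClosure K) * (β : AlgebraicClosure K) ^ j := by
  classical
  rw [trace_pow_aroots, Finset.sum_multiset_map_count]
  rw [Finset.sum_coe_sort S (fun β => (mult f β : AlgebraicClosure K) * β ^ j)]
  have h1 : (f.charpoly.aroots (AlgebraicClosure K)).toFinset = eig f := by
    unfold eig
    congr
  rw [h1]
  have h2 : ∀ β, Multiset.count β (f.charpoly.aroots (AlgebraicClosure K)) = mult f β := by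
    intro β
    unfold mult
    congr
  rw [← Finset.sum_subset hS]
  · refine Finset.sum_congr rfl fun β _ => ?_
    rw [h2, nsmul_eq_mul]
  · intro β _ hβ
    have : mult f β = 0 := by
      rw [← h2, Multiset.count_eq_zero]
      intro h
      apply hβ
      rw [← h1, Multiset.mem_toFinset]
      exact h
    rw [this, Nat.cast_zero, zero_mul]

theorem mult_pos (f : Module.End K V) (β : AlgebraicClosure K) (h : β ∈ eig f) : 0 < mult f β := by
  classical
  unfold mult
  rw [Multiset.count_pos]
  unfold eig at h
  rwa [Multiset.mem_toFinset] at h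

theorem mult_le (f : Module.End K V) (β : AlgebraicClosure K) : mult f β ≤ finrank K V := by
  classical
  unfold mult
  refine (Multiset.count_le_card _ _).trans ?_
  exact le_of_eq (Pool.Agent.B4801b.card_aroots (AlgebraicClosure K) f)

theorem hankel_map (n : ℕ) (f : Module.End K V) :
    (hankel n f).map (algebraMap K (AlgebraicClosure K)) =
      (powM n (eig f)).transpose * (Matrix.of fun (β : eig f) (j : Fin n) =>
        (mult f β : AlgebraicClosure K) * (β : AlgebraicClosure K) ^ (j : ℕ)) := by
  ext i j
  rw [Matrix.map_apply, hankel, Matrix.of_apply, sum_mult (eig f) f (Finset.Subset.refl _),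
    Matrix.mul_apply]
  refine Finset.sum_congr rfl fun β _ => ?_
  rw [Matrix.transpose_apply]
  simp only [powM, Matrix.of_apply]
  rw [pow_add]
  ring

/-- If the Hankel matrix is invertible there are at least `n` eigenvalues. -/
theorem le_card_of_det (n : ℕ) (f : Module.End K V) (h : (hankel n f).det ≠ 0) :
    n ≤ (eig f).card := by
  have h1 : ((hankel n f).map (algebraMap K (AlgebraicClosure K))).det ≠ 0 := by
    have h2 := RingHom.map_det (algebraMap K (AlgebraicClosure K)) (hankel n f)
    rw [RingHom.mapMatrix_apply] at h2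
    rw [← h2]
    simpa using h
  have h3 : ((hankel n f).map (algebraMap K (AlgebraicClosure K))).rank = n := by
    rw [Matrix.rank_of_isUnit _ ((Matrix.isUnit_iff_isUnit_det _).mpr (isUnit_iff_ne_zero.mpr h1)),
      Fintype.card_fin]
  rw [hankel_map] at h3
  have h4 := Matrix.rank_mul_le_left (powM n (eig f)).transpose
    (Matrix.of fun (β : eig f) (j : Fin n) =>
      (mult f β : AlgebraicClosure K) * (β : AlgebraicClosure K) ^ (j : ℕ))
  rw [h3] at h4
  have h5 := Matrix.rank_le_card_width (powM n (eig f)).transpose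
  rw [Fintype.card_coe] at h5
  exact h4.trans h5

/-- The quadratic form of the inverse matrix. -/
def Eform {L : Type*} [Field L] {n : ℕ} (H : Matrix (Fin n) (Fin n) L) (δ : Fin n → L) : L :=
  H.det⁻¹ * (δ ⬝ᵥ (H.adjugate.mulVec δ))

theorem Eform_map {L M : Type*} [Field L] [Field M] (σ : L →+* M) {n : ℕ}
    (H : Matrix (Fin n) (Fin n) L) (δ : Fin n → L) :
    σ (Eform H δ) = Eform (H.map σ) (fun i => σ (δ i)) := by
  have h1 := RingHom.map_det σ H
  rw [RingHom.mapMatrix_apply] at h1
  have h2 := RingHom.map_adjugate σ H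
  rw [RingHom.mapMatrix_apply, RingHom.mapMatrix_apply] at h2
  rw [Eform, Eform, map_mul, map_inv₀, h1, ← h2, RingHom.map_dotProduct]
  congr 2
  funext i
  rw [Function.comp_apply, RingHom.map_mulVec]
  rfl

theorem Eform_eval {L : Type*} [Field L] {n : ℕ} (A : Matrix (Fin n) (Fin n) L) (hA : A.det ≠ 0)
    (m d : Fin n → L) (hm : ∀ i, m i ≠ 0) :
    (A.transpose * Matrix.diagonal m * A).det ≠ 0 ∧
    Eform (A.transpose * Matrix.diagonal m * A) (A.transpose.mulVec d) = ∑ i, d i ^ 2 / m i := by
  set H := A.transpose * Matrix.diagonal m * A with hH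
  have hdet : H.det ≠ 0 := by
    rw [hH, Matrix.det_mul, Matrix.det_mul, Matrix.det_transpose, Matrix.det_diagonal]
    exact mul_ne_zero (mul_ne_zero hA (Finset.prod_ne_zero_iff.mpr fun i _ => hm i)) hA
  refine ⟨hdet, ?_⟩
  set y : Fin n → L := A⁻¹.mulVec (fun i => d i / m i) with hy
  have hAy : A.mulVec y = fun i => d i / m i := by
    rw [hy, Matrix.mulVec_mulVec, Matrix.mul_nonsing_inv _ (isUnit_iff_ne_zero.mpr hA),
      Matrix.one_mulVec]
  have hHy : H.mulVec y = A.transpose.mulVec d := by
    rw [hH, ← Matrix.mulVec_mulVec, hAy, ← Matrix.mulVec_mulVec]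
    congr 1
    funext i
    rw [Matrix.mulVec_diagonal]
    exact mul_div_cancel₀ _ (hm i)
  have h1 : H.adjugate.mulVec (A.transpose.mulVec d) = H.det • y := by
    rw [← hHy, Matrix.mulVec_mulVec, Matrix.adjugate_mul, Matrix.smul_mulVec, Matrix.one_mulVec]
  rw [Eform, h1, dotProduct_smul, smul_eq_mul, inv_mul_cancel_left₀ hdet,
    Matrix.mulVec_transpose, ← Matrix.dotProduct_mulVec, hAy, dotProduct]
  refine Finset.sum_congr rfl fun i _ => ?_
  rw [pow_two, mul_div_assoc]

end Pool.Agent.B4801bSq
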