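import Pool.Agent.W_b4801b_h24.Dual

set_option autoImplicit false

/-! Tate's conjecture for `X × X` and the trace form. -/

noncomputable section

open Polynomial Module

namespace Pool.Agent.B4801bSq

open Pool.Agent.B4801b

variable {K : Type*} [Field K] {V : Type*} [AddCommGroup V] [Module K V] {G : Type*} [Group G]

theorem traceNondeg_of_tate [Algebra ℚ K] [FiniteDimensional K V] (ρ : Representation K G V)
    (C : Set (Module.End K V)) (h : IsTateSquare ρ C) : TraceNondeg ρ := by
  classical
  intro n hn hne
  by_contra hall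
  push Not at hall
  obtain ⟨b, hbC, hspan, hli⟩ := exists_linearIndependent K C
  haveI : Fintype b := hli.setFinite.fintype
  have hzero : (0 : Module.End K V) ∈ C := by
    by_cases hC : C.Nonempty
    · obtain ⟨a, ha⟩ := hC
      have := h.smul_mem 0 a ha
      simpa using this
    · exfalso
      rw [Set.not_nonempty_iff_eq_empty] at hC
      have := h.tate n hn
      rw [hC, Submodule.span_empty, Submodule.mem_bot] at this
      exact hne this
  -- the Gram matrix
  have hrat : ∀ i j : b, ∃ r : ℚ, LinearMap.trace K V ((i : Module.End K V) * j) = algebraMap ℚ K r :=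
    fun i j => h.rational i (hbC i.2) j (hbC j.2)
  choose M hM using hrat
  have hnb : n ∈ Submodule.span K (Set.range fun i : b => (i : Module.End K V)) := by
    rw [Subtype.range_coe, hspan]
    exact h.tate n hn
  obtain ⟨t, ht⟩ := (Submodule.mem_span_range_iff_exists_fun K).mp hnb
  have ht0 : t ≠ 0 := by
    rintro rfl
    apply hne
    rw [← ht]
    simp
  have hker : Matrix.vecMul t ((Matrix.of M).map (algebraMap ℚ K)) = 0 := by
    funext j
    have h1 := hall (j : Module.End K V) (h.endo _ (hbC j.2))
    rw [← ht, Finset.sum_mul, map_sum] at h1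
    rw [Matrix.vecMul, dotProduct]
    rw [Pi.zero_apply, ← h1]
    refine Finset.sum_congr rfl fun i _ => ?_
    rw [Matrix.map_apply, Matrix.of_apply, ← hM, smul_mul_assoc, map_smul, smul_eq_mul]
  have hdet : ((Matrix.of M).map (algebraMap ℚ K)).det = 0 :=
    Matrix.exists_vecMul_eq_zero_iff.mp ⟨t, ht0, hker⟩
  have hdet' : (Matrix.of M).det = 0 := by
    have h1 : algebraMap ℚ K (Matrix.of M).det = 0 := by
      rw [RingHom.map_det]
      exact hdet
    exact (map_eq_zero _).mp h1
  obtain ⟨s, hs0, hs⟩ := Matrix.exists_vecMul_eq_zero_iff.mpr hdet'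
  let a : Module.End K V := ∑ i : b, algebraMap ℚ K (s i) • (i : Module.End K V)
  have haC : a ∈ C := by
    have : ∀ T : Finset b, ∑ i ∈ T, algebraMap ℚ K (s i) • (i : Module.End K V) ∈ C := by
      intro T
      induction T using Finset.induction_on with
      | empty => simpa using hzero
      | insert i T hi ih =>
        rw [Finset.sum_insert hi]
        exact h.add_mem _ (h.smul_mem _ _ (hbC i.2)) _ ih
    exact this Finset.univ
  have ha0 : a ≠ 0 := by
    intro h0
    apply hs0
    funext i
    have := Fintype.linearIndependent_iff.mp hli (fun i => algebraMap ℚ K (s i)) h0 i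
    exact (map_eq_zero _).mp this
  have hab : ∀ j : b, LinearMap.trace K V (a * j) = 0 := by
    intro j
    have h1 := congrFun hs j
    rw [Matrix.vecMul, dotProduct, Pi.zero_apply] at h1
    have h2 := congrArg (algebraMap ℚ K) h1
    rw [map_sum, map_zero] at h2
    rw [← h2]
    show LinearMap.trace K V ((∑ i : b, algebraMap ℚ K (s i) • (i : Module.End K V)) * j) = _
    rw [Finset.sum_mul, map_sum]
    refine Finset.sum_congr rfl fun i _ => ?_
    rw [smul_mul_assoc, map_smul, hM, smul_eq_mul, map_mul, Matrix.of_apply]
  obtain ⟨c, hcC, hc⟩ := h.nondeg a haC ha0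
  apply hc
  have hcb : c ∈ Submodule.span K (Set.range fun i : b => (i : Module.End K V)) := by
    rw [Subtype.range_coe, hspan]
    exact Submodule.subset_span hcC
  obtain ⟨u, hu⟩ := (Submodule.mem_span_range_iff_exists_fun K).mp hcb
  rw [← hu, Finset.mul_sum, map_sum]
  refine Finset.sum_eq_zero fun j _ => ?_
  rw [mul_smul_comm, map_smul, hab, smul_zero]

end Pool.Agent.B4801bSq
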