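import Pool.Agent.W_b4801b_h24.Powers
import Pool.Agent.W_b4801b_h24.Tate
import Pool.Agent.W_b4801b_t10.Defs

set_option autoImplicit false

/-! Potential endomorphisms: the passage to a small open subgroup. -/

noncomputable section

open Polynomial Module Filter Topology

universe u v

namespace Pool.Agent.B4801bSq

open Pool.Agent.B4801b Pool.Agent.T10

section Generic

variable {K : Type*} [Field K] {V : Type*} [AddCommGroup V] [Module K V] [FiniteDimensional K V]
  {G : Type*} [Group G] [TopologicalSpace G]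

/-- There is an open subgroup `U` (inside a given one) such that all smaller open subgroups have the
same span. -/
theorem exists_small (ρ : Representation K G V) (O : Subgroup G) (hO : IsOpen (O : Set G)) :
    ∃ U : Subgroup G, IsOpen (U : Set G) ∧ U ≤ O ∧ ∀ U' : Subgroup G, IsOpen (U' : Set G) →
      ∀ g ∈ U, ρ g ∈ Submodule.span K (ρ '' ((U' ⊓ U : Subgroup G) : Set G)) := by
  classical
  have hex : ∃ n : ℕ, ∃ U : Subgroup G, IsOpen (U : Set G) ∧ U ≤ O ∧
      finrank K (Submodule.span K (ρ '' (U : Set G))) = n := ⟨_, O, hO, le_rfl, rfl⟩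
  obtain ⟨U, hU, hUO, hn⟩ := Nat.find_spec hex
  refine ⟨U, hU, hUO, ?_⟩
  intro U' hU' g hg
  have hop : IsOpen ((U' ⊓ U : Subgroup G) : Set G) := by
    rw [Subgroup.coe_inf]
    exact hU'.inter hU
  have h1 := Nat.find_min' hex ⟨U' ⊓ U, hop, inf_le_right.trans hUO, rfl⟩
  rw [← hn] at h1
  have hle : Submodule.span K (ρ '' ((U' ⊓ U : Subgroup G) : Set G)) ≤
      Submodule.span K (ρ '' (U : Set G)) := by
    apply Submodule.span_mono
    apply Set.image_mono
    exact fun x hx => (inf_le_right : U' ⊓ U ≤ U) hx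
  rw [Submodule.eq_of_le_of_finrank_le hle h1]
  exact Submodule.subset_span ⟨g, hg, rfl⟩

/-- An endomorphism commuting with `ρ(u)`, `u ∈ U'`, commutes with the span. -/
theorem commute_span (ρ : Representation K G V) (U : Subgroup G) (f : Module.End K V)
    (hf : ∀ u ∈ U, ∀ x : V, f (ρ u x) = ρ u (f x)) (a : Module.End K V)
    (ha : a ∈ Submodule.span K (ρ '' (U : Set G))) (x : V) : f (a x) = a (f x) := by
  induction ha using Submodule.span_induction generalizing x with
  | mem a ha =>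
    obtain ⟨u, hu, rfl⟩ := ha
    exact hf u hu x
  | zero => rw [LinearMap.zero_apply, LinearMap.zero_apply, map_zero]
  | add a b _ _ ha hb => rw [LinearMap.add_apply, LinearMap.add_apply, map_add, ha, hb]
  | smul c a _ ha => rw [LinearMap.smul_apply, LinearMap.smul_apply, map_smul, ha]

/-- The potential endomorphisms are the endomorphisms for a small open subgroup. -/
theorem isPotEndo_iff (ρ : Representation K G V) (U : Subgroup G) (hU : IsOpen (U : Set G))
    (hs : ∀ U' : Subgroup G, IsOpen (U' : Set G) →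
      ∀ g ∈ U, ρ g ∈ Submodule.span K (ρ '' ((U' ⊓ U : Subgroup G) : Set G)))
    (f : Module.End K V) : IsPotEndo ρ f ↔ IsEndo (restr ρ U) f := by
  constructor
  · rintro ⟨U', hU', hf⟩ σ x
    refine commute_span ρ (U' ⊓ U) f (fun u hu => hf u hu.1) (ρ σ) (hs U' hU' σ σ.2) x
  · intro h
    exact ⟨U, hU, fun u hu x => h ⟨u, hu⟩ x⟩

theorem connected_restr (ρ : Representation K G V) (U : Subgroup G) (hU : IsOpen (U : Set G))
    (hs : ∀ U' : Subgroup G, IsOpen (U' : Set G) →
      ∀ g ∈ U, ρ g ∈ Submodule.span K (ρ '' ((U' ⊓ U : Subgroup G) : Set G))) :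
    Connected (restr ρ U) := by
  intro O hO g
  have hop : IsOpen ((O.map U.subtype : Subgroup G) : Set G) := by
    rw [Subgroup.coe_map]
    exact hU.isOpenMap_subtype_val _ hO
  have h1 := hs _ hop g g.2
  have h2 : (ρ '' ((O.map U.subtype ⊓ U : Subgroup G) : Set G)) ⊆ restr ρ U '' (O : Set U) := by
    rintro _ ⟨x, ⟨⟨y, hy, rfl⟩, _⟩, rfl⟩
    exact ⟨y, hy, rfl⟩
  exact Submodule.span_mono h2 h1

end Generic

/-- Open subgroups of the Galois group have finite index. -/
theorem finiteIndex_of_isOpen {k : Type u} [Field k] (U : Subgroup (Gal k))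
    (hU : IsOpen (U : Set (Gal k))) : U.FiniteIndex := by
  have h1 : (U : Set (Gal k)) ∈ nhds (1 : Gal k) := hU.mem_nhds U.one_mem
  rw [krullTopology_mem_nhds_one_iff_of_normal] at h1
  obtain ⟨E, hfd, hn, hE⟩ := h1
  have hfin : Finite (↥E ≃ₐ[k] ↥E) := inferInstance
  have h2 : E.fixingSubgroup.FiniteIndex := by
    rw [← IntermediateField.restrictNormalHom_ker E]
    infer_instance
  exact Subgroup.finiteIndex_of_le (H := E.fixingSubgroup) hE

theorem exists_pow_mem {k : Type u} [Field k] (U : Subgroup (Gal k))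
    (hU : IsOpen (U : Set (Gal k))) (g : Gal k) : ∃ a : ℕ, 0 < a ∧ g ^ a ∈ U := by
  have h1 : (U : Set (Gal k)) ∈ nhds (1 : Gal k) := hU.mem_nhds U.one_mem
  rw [krullTopology_mem_nhds_one_iff_of_normal] at h1
  obtain ⟨E, hfd, hn, hE⟩ := h1
  have hfin : Finite (↥E ≃ₐ[k] ↥E) := inferInstance
  refine ⟨Nat.card (↥E ≃ₐ[k] ↥E), Nat.card_pos, hE ?_⟩
  rw [← IntermediateField.restrictNormalHom_ker E]
  change AlgEquiv.restrictNormalHom (↥E) (g ^ Nat.card (↥E ≃ₐ[k] ↥E)) = 1
  rw [map_pow]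
  exact pow_card_eq_one'

/-- Different roots of a neat polynomial have different powers, over every algebraically closed
field. -/
theorem pow_ne_of_neat {F : Type*} [Field F] (P : F[X]) (L M : Type*) [Field L] [Algebra F L]
    [IsAlgClosed L] [Field M] [Algebra F M] [IsAlgClosed M] (m : ℕ)
    (h : ∀ a b : L, aeval a P = 0 → aeval b P = 0 → a ≠ b → a ^ m ≠ b ^ m) (hP : P ≠ 0)
    (a b : M) (ha : aeval a P = 0) (hb : aeval b P = 0) (hab : a ≠ b) : a ^ m ≠ b ^ m := by
  let τ : AlgebraicClosure F →ₐ[F] L := IsAlgClosed.lift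
  let τ' : AlgebraicClosure F →ₐ[F] M := IsAlgClosed.lift
  have hsp : (P.map (algebraMap F (AlgebraicClosure F))).Splits := IsAlgClosed.splits _
  have hroot : ∀ z : M, aeval z P = 0 → ∃ z', τ' z' = z ∧ aeval z' P = 0 := by
    intro z hz
    have h1 : z ∈ P.rootSet M := by
      rw [mem_rootSet]
      exact ⟨hP, hz⟩
    rw [← hsp.image_rootSet τ'] at h1
    obtain ⟨z', hz', rfl⟩ := h1
    exact ⟨z', rfl, (mem_rootSet.mp hz').2⟩
  obtain ⟨a', rfl, ha'⟩ := hroot a ha
  obtain ⟨b', rfl, hb'⟩ := hroot b hb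
  have hne : a' ≠ b' := fun h0 => hab (by rw [h0])
  have h1 := h (τ a') (τ b') (by rw [Polynomial.aeval_algHom_apply, ha', map_zero])
    (by rw [Polynomial.aeval_algHom_apply, hb', map_zero])
    (fun h0 => hne (τ.toRingHom.injective h0))
  intro h2
  apply h1
  rw [← map_pow, ← map_pow] at h2 ⊢
  have h3 : a' ^ m = b' ^ m := τ'.toRingHom.injective h2
  rw [h3]

/-- No element of the open subgroup of `MaxRoots` has more than `D` eigenvalues. -/
theorem card_eig_le_of_dense {k : Type u} [Field k] {w : ℕ} (S : CompSys.{u, v} k w) (D : ℕ)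
    (hd : DenseFrob S) (O : Subgroup (Gal k)) (hO : IsOpen (O : Set (Gal k)))
    (hm : ∀ x ∈ S.Pl, (∃ h : Gal k, h * x.frob * h⁻¹ ∈ O) → ((S.P x).rootSet ℂ).ncard ≤ D)
    (ℓ : ℕ) [Fact ℓ.Prime] (g : Gal k) (hg : g ∈ O) :
    (eig ((S.rep ℓ).ρ g)).card ≤ D := by
  set ρ := (S.rep ℓ).ρ with hρ
  set n := (eig (ρ g)).card with hn
  have hdet : (hankel n (ρ g)).det ≠ 0 :=
    (eform_nat (ρ g) n hn.symm (ρ g) (ρ g) (Finset.Subset.refl _) (Finset.Subset.refl _) le_rfl
      le_rfl).1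
  have hc : Continuous fun g => (hankel n (ρ g)).det := by
    refine Continuous.matrix_det (continuous_matrix fun i j => ?_)
    have h1 := (continuous_functional ρ (S.rep ℓ).continuous (LinearMap.trace ℚ_[ℓ] (S.rep ℓ).V)).comp
      (continuous_pow ((i : ℕ) + (j : ℕ)))
    refine h1.congr fun g => ?_
    show LinearMap.trace ℚ_[ℓ] (S.rep ℓ).V (ρ (g ^ ((i : ℕ) + (j : ℕ)))) = _
    rw [map_pow]
    rfl
  obtain ⟨U, hU, hUg⟩ := openCosets_gal k g _ (hc.continuousAt.eventually_ne hdet)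
  have hop : IsOpen ((U ⊓ O : Subgroup (Gal k)) : Set (Gal k)) := by
    rw [Subgroup.coe_inf]
    exact hU.inter hO
  obtain ⟨x, hx, hxp, h, hh⟩ := hd (U ⊓ O) hop g {ℓ}
  have hℓ : ℓ ≠ x.p := by
    intro h0
    apply hxp
    rw [← h0]
    exact Finset.mem_singleton_self _
  have h1 := hUg _ hh.1
  have h2 : g * (g⁻¹ * (h * x.frob * h⁻¹)) = h * x.frob * h⁻¹ := by group
  rw [h2] at h1
  have h3 := le_card_of_det n _ h1
  rw [card_eig_conj, card_eig_frob S x hx ℓ hℓ] at h3
  refine h3.trans (hm x hx ⟨h, ?_⟩)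
  rw [← h2]
  exact O.mul_mem hg hh.2

/-- Clause (B): for the primes of `conjPrimes` the representation `V_ℓ` is semisimple if and only if
the trace form of the algebra of its potential endomorphisms is nondegenerate, and Tate's conjecture
for `X × X` over the algebraic closure implies that `V_ℓ` is semisimple. -/
theorem clauseB {k : Type u} [Field k] {w : ℕ} (S : CompSys.{u, v} k w) (D : ℕ) (hd : DenseFrob S)
    (hm : MaxRoots S D) (ℓ : ℕ) [Fact ℓ.Prime] (hℓ : ℓ ∈ conjPrimes S D) :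
    ((S.rep ℓ).Semisimple ↔ PotTraceNondeg (S.rep ℓ).ρ) ∧
      ((S.rep ℓ).Semisimple ↔ PotEndoSemiprime (S.rep ℓ).ρ) ∧
      ((∃ C, IsPotTateSquare (S.rep ℓ).ρ C) → (S.rep ℓ).Semisimple) := by
  obtain ⟨_, x, hx, hxp', hdual'⟩ := hℓ
  obtain ⟨_, hdual⟩ := hdual'
  have hxp : ℓ ≠ x.p := Ne.symm hxp'
  obtain ⟨O, hO, hOm⟩ := hm
  set ρ := (S.rep ℓ).ρ with hρ
  obtain ⟨U, hU, hUO, hs⟩ := exists_small ρ O hO
  have hfi : U.FiniteIndex := finiteIndex_of_isOpen U hU
  have hpot := isPotEndo_iff ρ U hU hs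
  -- the element `φ = F_x ^ a` of `U`
  obtain ⟨a, ha, haU⟩ := exists_pow_mem U hU x.frob
  let φ : U := ⟨x.frob ^ a, haU⟩
  have hq0 : x.q ≠ 0 := by
    intro h0
    have := x.cyc_frob ℓ hxp
    rw [h0, Nat.cast_zero, mul_zero] at this
    exact zero_ne_one this
  have hqc : ((x.q : ℚ_[ℓ]) ^ w) ≠ 0 := pow_ne_zero _ (Nat.cast_ne_zero.mpr hq0)
  have hchar : (ρ x.frob).charpoly = (S.P x).map (algebraMap ℚ ℚ_[ℓ]) :=
    S.charpoly_frob x hx.1 ℓ hxp
  have hφc : ∀ y z, (S.rep ℓ).ψ (restr ρ U φ y) (restr ρ U φ z) =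
      ((x.q : ℚ_[ℓ]) ^ w) ^ a * (S.rep ℓ).ψ y z := by
    have h1 : ∀ y z, (S.rep ℓ).ψ (ρ x.frob y) (ρ x.frob z) =
        (x.q : ℚ_[ℓ]) ^ w * (S.rep ℓ).ψ y z := by
      intro y z
      rw [← (S.rep ℓ).equivariant x.frob y z, ← mul_assoc, ← mul_pow, mul_comm (x.q : ℚ_[ℓ]),
        x.cyc_frob ℓ hxp, one_pow, one_mul]
    have h2 : ∀ (n : ℕ) (y z : (S.rep ℓ).V), (S.rep ℓ).ψ (ρ (x.frob ^ n) y) (ρ (x.frob ^ n) z) =
        ((x.q : ℚ_[ℓ]) ^ w) ^ n * (S.rep ℓ).ψ y z := by
      intro n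
      induction n with
      | zero => intro y z; simp
      | succ n ih =>
        intro y z
        have h3 : ∀ y, ρ (x.frob ^ (n + 1)) y = ρ (x.frob ^ n) (ρ x.frob y) := by
          intro y
          rw [pow_succ, map_mul, Module.End.mul_apply]
        rw [h3, h3, ih, h1, pow_succ, mul_assoc]
    exact h2 a
  have hdualφ : ∀ g : ℚ_[ℓ][X], Irreducible g → g ∣ (restr ρ U φ).charpoly →
      SelfDualPoly (((x.q : ℚ_[ℓ]) ^ w) ^ a) g := by
    have h1 : ∀ g : ℚ_[ℓ][X], Irreducible g → g ∣ (ρ x.frob).charpoly →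
        SelfDualPoly ((x.q : ℚ_[ℓ]) ^ w) g := by
      intro g hg hdv
      rw [hchar] at hdv
      have := hdual g hg hdv
      rwa [map_pow, map_natCast] at this
    have h2 : restr ρ U φ = (ρ x.frob) ^ a := by
      rw [restr_apply, ← map_pow]
    rw [h2]
    exact selfDual_pow (ρ x.frob) _ h1 a ha
  have hcard : (eig (restr ρ U φ)).card = D := by
    have h2 : restr ρ U φ = (ρ x.frob) ^ a := by
      rw [restr_apply, ← map_pow]
    rw [h2, card_eig_pow (ρ x.frob) a ha, card_eig_frob S x hx.1 ℓ hxp, hx.2.2.1]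
    intro y hy z hz hyz
    have hP : S.P x ≠ 0 := hx.2.1
    have hroot : ∀ y ∈ eig (ρ x.frob), aeval y (S.P x) = 0 := by
      intro y hy
      have h3 : y ∈ (S.P x).rootSet (AlgebraicClosure ℚ_[ℓ]) := by
        rw [← eig_frob S x hx.1 ℓ hxp]
        exact hy
      exact (mem_rootSet.mp h3).2
    exact pow_ne_of_neat (S.P x) ℂ (AlgebraicClosure ℚ_[ℓ]) a
      (fun a' b' h4 h5 h6 => hx.2.2.2 a' b' h4 h5 h6 a ha) hP y z (hroot y hy) (hroot z hz) hyz
  have hmax : ∀ g : U, (eig (restr ρ U g)).card ≤ D := fun g =>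
    card_eig_le_of_dense S D hd O hO hOm ℓ g (hUO g.2)
  have hcont : IsContinuousRep (restr ρ U) := by
    intro f y
    exact ((S.rep ℓ).continuous f y).comp continuous_subtype_val
  have hsep : Separates (restr ρ U) φ :=
    separates_of_connected (openCosets_sub (openCosets_gal k) U hU) (restr ρ U) hcont D hmax φ hcard
      (connected_restr ρ U hU hs)
  have heq : Equivariant (fun σ : U => cyc k ℓ (σ : Gal k) ^ w) (restr ρ U) (S.rep ℓ).ψ :=
    fun σ y z => (S.rep ℓ).equivariant σ y z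
  have hsd : IsotropicSelfDual (restr ρ U) (S.rep ℓ).ψ :=
    isotropicSelfDual (restr ρ U) (S.rep ℓ).ψ (S.rep ℓ).nondeg _ heq φ _ (pow_ne_zero a hqc) hφc
      hdualφ hsep
  have hss : (S.rep ℓ).Semisimple ↔ IsSemisimpleRep (restr ρ U) := semisimple_iff_restr ρ U
  have h1 : EndoSemiprime (restr ρ U) → IsSemisimpleRep (restr ρ U) := fun h =>
    semisimple_of_semiprime (restr ρ U) (S.rep ℓ).ψ _ heq hsd h
  have h2 : IsSemisimpleRep (restr ρ U) → TraceNondeg (restr ρ U) := trace_of_semisimple _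
  have h3 : TraceNondeg (restr ρ U) → EndoSemiprime (restr ρ U) := semiprime_of_trace _
  have h4 : PotTraceNondeg ρ ↔ TraceNondeg (restr ρ U) := by
    unfold PotTraceNondeg TraceNondeg
    simp only [hpot]
  have h5 : PotEndoSemiprime ρ ↔ EndoSemiprime (restr ρ U) := by
    unfold PotEndoSemiprime EndoSemiprime
    simp only [hpot]
  refine ⟨?_, ?_, ?_⟩
  · rw [hss, h4]
    exact ⟨h2, fun h => h1 (h3 h)⟩
  · rw [hss, h5]
    exact ⟨fun h => h3 (h2 h), h1⟩
  · rintro ⟨C, hC⟩
    rw [hss]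
    apply h1
    apply h3
    apply traceNondeg_of_tate (restr ρ U) C
    exact
      { endo := fun f hf => (hpot f).mp (hC.endo f hf)
        add_mem := hC.add_mem
        smul_mem := hC.smul_mem
        tate := fun f hf => hC.tate f ((hpot f).mpr hf)
        rational := hC.rational
        nondeg := hC.nondeg }

end Pool.Agent.B4801bSq
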