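import Pool.Agent.W_b4801b_h24.Sep

set_option autoImplicit false

/-! Eigenvalues of powers. -/

noncomputable section

open Polynomial Module

universe u v

namespace Pool.Agent.B4801bSq

open Pool.Agent.B4801b

variable {K : Type*} [Field K] {V : Type*} [AddCommGroup V] [Module K V] [FiniteDimensional K V]

theorem mem_eig_iff (f : Module.End K V) (z : AlgebraicClosure K) :
    z ∈ eig f ↔ aeval z f.charpoly = 0 := by
  classical
  unfold eig
  rw [Multiset.mem_toFinset, mem_aroots]
  exact ⟨fun h => h.2, fun h => ⟨(LinearMap.charpoly_monic f).ne_zero, h⟩⟩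

theorem mem_eig_iff_spectrum (f : Module.End K V) (z : AlgebraicClosure K) :
    z ∈ eig f ↔ z ∈ spectrum (AlgebraicClosure K) (f.baseChange (AlgebraicClosure K)) := by
  rw [mem_eig_iff, Module.End.mem_spectrum_iff_isRoot_charpoly, LinearMap.charpoly_baseChange,
    IsRoot, Polynomial.eval_map_algebraMap]

/-- The eigenvalues of a power are the powers of the eigenvalues. -/
theorem mem_eig_pow (f : Module.End K V) (a : ℕ) (ha : 0 < a) (z : AlgebraicClosure K) :
    z ∈ eig (f ^ a) ↔ ∃ y ∈ eig f, y ^ a = z := by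
  rw [mem_eig_iff_spectrum, LinearMap.baseChange_pow, spectrum.map_pow_of_pos _ ha]
  constructor
  · rintro ⟨y, hy, rfl⟩
    exact ⟨y, (mem_eig_iff_spectrum f y).mpr hy, rfl⟩
  · rintro ⟨y, hy, rfl⟩
    exact ⟨y, (mem_eig_iff_spectrum f y).mp hy, rfl⟩

theorem card_eig_pow (f : Module.End K V) (a : ℕ) (ha : 0 < a)
    (hinj : ∀ y ∈ eig f, ∀ z ∈ eig f, y ≠ z → y ^ a ≠ z ^ a) :
    (eig (f ^ a)).card = (eig f).card := by
  classical
  have h1 : eig (f ^ a) = (eig f).image (fun y => y ^ a) := by
    ext z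
    rw [mem_eig_pow f a ha, Finset.mem_image]
  rw [h1]
  apply Finset.card_image_of_injOn
  intro y hy z hz hyz
  by_contra hne
  exact hinj y hy z hz hne hyz

/-- The irreducible factors of the characteristic polynomial of a power are again self-dual. -/
theorem selfDual_pow (f : Module.End K V) (c : K)
    (hd : ∀ g : K[X], Irreducible g → g ∣ f.charpoly → SelfDualPoly c g) (a : ℕ) (ha : 0 < a) :
    ∀ g : K[X], Irreducible g → g ∣ (f ^ a).charpoly → SelfDualPoly (c ^ a) g := by
  intro g hg hdv β hβ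
  have h1 : β ∈ eig (f ^ a) := by
    rw [mem_eig_iff]
    obtain ⟨q, hq⟩ := hdv
    rw [hq, map_mul, hβ, zero_mul]
  obtain ⟨α, hα, rfl⟩ := (mem_eig_pow f a ha β).mp h1
  rw [mem_eig_iff] at hα
  have hint : IsIntegral K α := ⟨f.charpoly, LinearMap.charpoly_monic f, hα⟩
  have h2 : SelfDualPoly c (minpoly K α) := hd _ (minpoly.irreducible hint) (minpoly.dvd K α hα)
  have h3 := h2 α (minpoly.aeval K α)
  set γ := algebraMap K (AlgebraicClosure K) c / α with hγ
  have h4 : minpoly K α = minpoly K γ := by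
    refine minpoly.eq_of_irreducible_of_monic (minpoly.irreducible hint) h3 (minpoly.monic hint)
  obtain ⟨σ, hσ⟩ := isConjRoot_iff_exists_algEquiv.mp (h4.symm : IsConjRoot K γ α)
  have h5 : algebraMap K (AlgebraicClosure K) (c ^ a) / α ^ a = σ (α ^ a) := by
    rw [map_pow, ← div_pow, ← hγ, map_pow]
    rw [hσ]
  rw [h5, Polynomial.aeval_algHom_apply, hβ, map_zero]

end Pool.Agent.B4801bSq
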