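import Pool.Agent.W_b4801b_h24.Cont
import Pool.Agent.W_b4801b_h24.Cliff

set_option autoImplicit false

/-! Elements with the maximal number of eigenvalues separate the constituents. -/

noncomputable section

open Polynomial Module Filter Topology

universe u v

namespace Pool.Agent.B4801bSq

open Pool.Agent.B4801b

/-- The representation is connected: for every open subgroup `U` the operators `ρ(u)`, `u ∈ U`, span
the same space of operators as the operators `ρ(g)`, `g ∈ G`. -/
def Connected {K : Type*} [Field K] {V : Type*} [AddCommGroup V] [Module K V] {G : Type*} [Group G]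
    [TopologicalSpace G] (ρ : Representation K G V) : Prop :=
  ∀ U : Subgroup G, IsOpen (U : Set G) → ∀ g : G, ρ g ∈ Submodule.span K (ρ '' (U : Set G))

/-- Neighbourhoods contain cosets of open subgroups. -/
def OpenCosets (G : Type*) [Group G] [TopologicalSpace G] : Prop :=
  ∀ (γ : G) (P : G → Prop), (∀ᶠ g in 𝓝 γ, P g) →
    ∃ U : Subgroup G, IsOpen (U : Set G) ∧ ∀ u ∈ U, P (γ * u)

/-- Neighbourhoods in the Galois group contain cosets of open subgroups. -/
theorem openCosets_gal (k : Type u) [Field k] : OpenCosets (Gal k) := by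
  intro γ P h
  have h1 : ∀ᶠ u in 𝓝 (1 : Gal k), P (γ * u) := by
    have h2 : Tendsto (fun u : Gal k => γ * u) (𝓝 1) (𝓝 γ) := by
      have h3 : ContinuousAt (fun u : Gal k => γ * u) 1 := (continuous_const_mul γ).continuousAt
      have h4 : γ * 1 = γ := mul_one γ
      have h5 : Tendsto (fun u : Gal k => γ * u) (𝓝 1) (𝓝 (γ * 1)) := h3
      rwa [h4] at h5
    exact h2.eventually h
  obtain ⟨E, hE, hsub⟩ := (krullTopology_mem_nhds_one_iff k (AlgebraicClosure k) _).mp h1
  exact ⟨E.fixingSubgroup, E.fixingSubgroup_isOpen, fun u hu => hsub hu⟩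

/-- The same for an open subgroup. -/
theorem openCosets_sub {G : Type*} [Group G] [TopologicalSpace G] (hG : OpenCosets G)
    (O : Subgroup G) (hO : IsOpen (O : Set G)) : OpenCosets O := by
  intro γ P h
  have h1 : ∀ᶠ g in 𝓝 (γ : G), ∀ hg : g ∈ O, P ⟨g, hg⟩ := by
    rw [nhds_subtype_eq_comap, eventually_comap] at h
    filter_upwards [h] with g hg hgO
    exact hg ⟨g, hgO⟩ rfl
  obtain ⟨U, hU, hUP⟩ := hG γ _ h1
  refine ⟨U.subgroupOf O, hU.preimage continuous_subtype_val, ?_⟩
  intro u hu
  exact hUP (u : G) hu (γ * u).2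

/-- An element with `D` eigenvalues separates the constituents of a connected continuous
representation, if no element has more than `D` eigenvalues. -/
theorem separates_of_connected {K : Type*} [Field K] [TopologicalSpace K] [IsTopologicalRing K]
    [T1Space K] [ContinuousInv₀ K] [CharZero K]
    {V : Type*} [AddCommGroup V] [Module K V] [FiniteDimensional K V] {G : Type*} [Group G]
    [TopologicalSpace G] [IsTopologicalGroup G] (hG : OpenCosets G) (ρ : Representation K G V)
    (hρ : IsContinuousRep ρ) (D : ℕ) (hmax : ∀ g : G, (eig (ρ g)).card ≤ D) (γ : G)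
    (hγ : (eig (ρ γ)).card = D) (hc : Connected ρ) : Separates ρ γ := by
  intro W U hW hU hch
  obtain ⟨O, hO, hOu⟩ := hG γ _ (trace_eq_near ρ hρ D hmax γ hγ W U hW.1 hU.1 hch)
  apply iso_of_trace ρ W U hW hU
  intro g
  obtain ⟨t, ht⟩ := exists_functional W U
  have h0 : ∀ u ∈ O, t (ρ (γ * u)) = 0 := fun u hu => by
    rw [ht _ (hW.1 _) (hU.1 _), hOu u hu, sub_self]
  have h1 : ∀ a ∈ Submodule.span K (ρ '' (O : Set G)), t (ρ γ * a) = 0 := by
    intro a ha
    induction ha using Submodule.span_induction with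
    | mem a ha =>
      obtain ⟨u, hu, rfl⟩ := ha
      rw [← map_mul]
      exact h0 u hu
    | zero => rw [mul_zero, map_zero]
    | add a b _ _ ha hb => rw [mul_add, map_add, ha, hb, add_zero]
    | smul c a _ ha => rw [mul_smul_comm, map_smul, ha, smul_zero]
  have h2 := h1 _ (hc O hO (γ⁻¹ * g))
  rw [← map_mul, mul_inv_cancel_left, ht _ (hW.1 g) (hU.1 g)] at h2
  exact sub_eq_zero.mp h2

/-- The number of roots does not depend on the algebraically closed field. -/
theorem ncard_rootSet_aux {F : Type*} [Field F] (P : F[X]) (N : Type*) [Field N] [Algebra F N]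
    [IsAlgClosed N] : (P.rootSet N).ncard = (P.rootSet (AlgebraicClosure F)).ncard := by
  let τ : AlgebraicClosure F →ₐ[F] N := IsAlgClosed.lift
  have hsp : (P.map (algebraMap F (AlgebraicClosure F))).Splits := IsAlgClosed.splits _
  have hτ : Function.Injective τ := τ.toRingHom.injective
  rw [← hsp.image_rootSet τ, Set.ncard_image_of_injective _ hτ]

theorem ncard_rootSet {F : Type*} [Field F] (P : F[X]) (L M : Type*) [Field L] [Algebra F L]
    [IsAlgClosed L] [Field M] [Algebra F M] [IsAlgClosed M] :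
    (P.rootSet L).ncard = (P.rootSet M).ncard := by
  rw [ncard_rootSet_aux P L, ncard_rootSet_aux P M]

theorem eig_frob {k : Type u} [Field k] {w : ℕ} (S : CompSys.{u, v} k w) (x : Place k)
    (hx : x ∈ S.Pl) (ℓ : ℕ) [Fact ℓ.Prime] (hℓ : ℓ ≠ x.p) :
    ((eig ((S.rep ℓ).ρ x.frob) : Finset (AlgebraicClosure ℚ_[ℓ])) :
      Set (AlgebraicClosure ℚ_[ℓ])) = (S.P x).rootSet (AlgebraicClosure ℚ_[ℓ]) := by
  classical
  have hchar : ((S.rep ℓ).ρ x.frob).charpoly = (S.P x).map (algebraMap ℚ ℚ_[ℓ]) :=
    S.charpoly_frob x hx ℓ hℓ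
  unfold eig
  rw [hchar, Polynomial.aroots_map, rootSet]

theorem card_eig_frob {k : Type u} [Field k] {w : ℕ} (S : CompSys.{u, v} k w) (x : Place k)
    (hx : x ∈ S.Pl) (ℓ : ℕ) [Fact ℓ.Prime] (hℓ : ℓ ≠ x.p) :
    (eig ((S.rep ℓ).ρ x.frob)).card = ((S.P x).rootSet ℂ).ncard := by
  rw [← Set.ncard_coe_finset, eig_frob S x hx ℓ hℓ]
  exact ncard_rootSet _ _ _

theorem card_eig_conj {K : Type*} [Field K] {V : Type*} [AddCommGroup V] [Module K V]
    [FiniteDimensional K V] {G : Type*} [Group G] (ρ : Representation K G V) (h g : G) :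
    eig (ρ (h * g * h⁻¹)) = eig (ρ g) := by
  have h1 : (ρ (h * g * h⁻¹)).charpoly = (ρ g).charpoly := by
    let e : V ≃ₗ[K] V := LinearEquiv.ofLinearMap (ρ h) (ρ h⁻¹)
      (by
        rw [← Module.End.mul_eq_comp, ← map_mul, mul_inv_cancel, map_one]; rfl)
      (by
        rw [← Module.End.mul_eq_comp, ← map_mul, inv_mul_cancel, map_one]; rfl)
    rw [← LinearEquiv.charpoly_conj e (ρ g)]
    congr 1
    rw [map_mul, map_mul]
    rfl
  unfold eig
  rw [h1]

end Pool.Agent.B4801bSq
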